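import Pool.Agent.Q3.ExpK.Sel

/-!
# Blocks: many well separated values
-/

set_option autoImplicit false

open Filter Topology Set

namespace Pool.Agent.Q3.ExpK

/-- The conditions on a block `[n, n+b)`. -/
structure Good (x y : ℝ) (n b : ℕ) : Prop where
  hn : 2 ≤ n
  hb : b ≤ n
  h1 : (2 * n / y) ^ b ≤ (mu x y / y) ^ n
  h2 : (b : ℝ) ^ 2 ≤ n * Real.log (x / y) / 2
  h3 : 64 * (x / y) ≤ Real.log (x / y) * (n + 1)

/-- Values of partial sums over `U`. -/
def Rep (x y : ℝ) (U : Finset ℕ) (v : ℝ) : Prop :=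
  ∃ t : ℕ → ℝ, (∀ i ∈ U, t i ∈ Tm x y i) ∧ v = ∑ i ∈ U, t i / i.factorial

theorem rep_union {x y : ℝ} {U W : Finset ℕ} (hd : Disjoint U W) {v w : ℝ} (h1 : Rep x y U v)
    (h2 : Rep x y W w) : Rep x y (U ∪ W) (v + w) := by
  classical
  obtain ⟨t, ht, rfl⟩ := h1
  obtain ⟨s, hs, rfl⟩ := h2
  refine ⟨fun i => if i ∈ U then t i else s i, ?_, ?_⟩
  · intro i hi
    by_cases h : i ∈ U
    · simp only [h, if_true]; exact ht i h
    · simp only [h, if_false]
      exact hs i ((Finset.mem_union.1 hi).resolve_left h)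
  · rw [Finset.sum_union hd]
    congr 1
    · refine Finset.sum_congr rfl fun i hi => ?_
      simp only [hi, if_true]
    · refine Finset.sum_congr rfl fun i hi => ?_
      have : i ∉ U := fun h => (Finset.disjoint_left.1 hd h) hi
      simp only [this, if_false]

theorem rep_singleton {x y : ℝ} {i : ℕ} {t : ℝ} (ht : t ∈ Tm x y i) :
    Rep x y {i} (t / i.factorial) := by
  refine ⟨fun _ => t, ?_, by simp⟩
  intro j hj
  rw [Finset.mem_singleton] at hj
  subst hj
  exact ht

theorem fact_ratio {m i n : ℕ} (h : i ≤ m) (hm : m ≤ 2 * n) :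
    (m.factorial : ℝ) ≤ i.factorial * (2 * n) ^ (m - i) := by
  have h1 : i.factorial * (i + 1).ascFactorial (m - i) = (i + (m - i)).factorial :=
    Nat.factorial_mul_ascFactorial _ _
  have h2 : (i + 1).ascFactorial (m - i) ≤ (i + (m - i)) ^ (m - i) := Nat.ascFactorial_le_pow_add _ _
  rw [show i + (m - i) = m by omega] at h1 h2
  rw [← h1]
  push_cast
  apply mul_le_mul_of_nonneg_left _ (by positivity)
  calc (((i + 1).ascFactorial (m - i) : ℕ) : ℝ) ≤ ((m ^ (m - i) : ℕ) : ℝ) := by exact_mod_cast h2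
    _ ≤ (2 * n) ^ (m - i) := by
      push_cast
      apply pow_le_pow_left₀ (Nat.cast_nonneg _)
      exact_mod_cast hm

section

variable {x y : ℝ} (hy : 0 < y) (hxy : y < x) (hx : x ≤ 1)

include hy hxy hx in
theorem S_antitone {a b : ℕ} (h : a ≤ b) : S x y b ≤ S x y a := by
  induction b, h using Nat.le_induction with
  | base => exact le_rfl
  | succ b hb ih =>
    refine le_trans ?_ ih
    have h1 := mu_props hy hxy hx
    have h2 := S_pos hy hxy hx b
    rw [S_succ hy hxy hx]
    have h3 : mu x y / ((b : ℝ) + 1) ≤ 1 := by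
      rw [div_le_one (by positivity)]
      have : (0 : ℝ) ≤ b := Nat.cast_nonneg b
      linarith [h1.2.1]
    nlinarith

include hy hxy hx in
theorem reachable {n b : ℕ} (hG : Good x y n b) {m i : ℕ} (hm : n ≤ m) (hm' : m < n + b)
    (hi : n ≤ i) (hi' : i < n + b) :
    y ^ i / i.factorial ≤ S x y m ∧ S x y m ≤ x ^ i / i.factorial := by
  have hx0 : 0 < x := hy.trans hxy
  obtain ⟨u1, u2, u3, u4⟩ := mu_props hy hxy hx
  have hn1 : (2 : ℝ) ≤ n := by exact_mod_cast hG.hn
  have hbn := hG.hb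
  have hy1 : y < 1 := hxy.trans_le hx
  have hr1 : 1 ≤ mu x y / y := by rw [le_div_iff₀ hy]; linarith
  have hr2 : mu x y / y = x / mu x y := by
    rw [div_eq_div_iff hy.ne' u3.ne']; nlinarith
  have hbig : 1 ≤ 2 * n / y := by rw [le_div_iff₀ hy]; linarith
  have key : ∀ d ≤ b, (2 * n / y) ^ d ≤ (mu x y / y) ^ m := by
    intro d hd
    calc (2 * n / y) ^ d ≤ (2 * n / y) ^ b := pow_le_pow_right₀ hbig hd
      _ ≤ (mu x y / y) ^ n := hG.h1
      _ ≤ (mu x y / y) ^ m := pow_le_pow_right₀ hr1 hm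
  unfold S
  constructor
  · rw [div_le_div_iff₀ (by positivity) (by positivity)]
    rcases le_or_gt m i with h | h
    · have h1 : y ^ i ≤ mu x y ^ m := (pow_le_pow_of_le_one hy.le hy1.le h).trans
        (pow_le_pow_left₀ hy.le u1.le _)
      have h2 : (m.factorial : ℝ) ≤ i.factorial := by exact_mod_cast Nat.factorial_le h
      exact mul_le_mul h1 h2 (by positivity) (by positivity)
    · have h1 := fact_ratio (n := n) h.le (by omega)
      have h2 := key (m - i) (by omega)
      calc y ^ i * m.factorial ≤ y ^ i * (i.factorial * (2 * n) ^ (m - i)) :=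
            mul_le_mul_of_nonneg_left h1 (by positivity)
        _ = (y ^ m * (2 * n / y) ^ (m - i)) * i.factorial := by
            have : y ^ m = y ^ i * y ^ (m - i) := by rw [← pow_add]; congr 1; omega
            rw [this, div_pow]; field_simp
        _ ≤ (y ^ m * (mu x y / y) ^ m) * i.factorial := by gcongr
        _ = mu x y ^ m * i.factorial := by rw [div_pow]; field_simp
  · rw [div_le_div_iff₀ (by positivity) (by positivity)]
    rcases le_or_gt i m with h | h
    · have h1 : mu x y ^ m ≤ x ^ i := (pow_le_pow_left₀ u3.le u2.le _).trans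
        (pow_le_pow_of_le_one hx0.le hx h)
      have h2 : (i.factorial : ℝ) ≤ m.factorial := by exact_mod_cast Nat.factorial_le h
      exact mul_le_mul h1 h2 (by positivity) (by positivity)
    · have h1 := fact_ratio (n := n) h.le (by omega)
      have h2 := key (i - m) (by omega)
      have h3 : (2 * n / x) ^ (i - m) ≤ (2 * n / y) ^ (i - m) := by
        apply pow_le_pow_left₀ (by positivity)
        exact div_le_div_of_nonneg_left (by positivity) hy hxy.le
      calc mu x y ^ m * i.factorial ≤ mu x y ^ m * (m.factorial * (2 * n) ^ (i - m)) :=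
            mul_le_mul_of_nonneg_left h1 (by positivity)
        _ = (mu x y ^ m * (2 * n / x) ^ (i - m)) * x ^ (i - m) * m.factorial := by
            rw [div_pow]; field_simp
        _ ≤ (mu x y ^ m * (x / mu x y) ^ m) * x ^ (i - m) * m.factorial := by
            rw [← hr2]; gcongr; exact h3.trans h2
        _ = x ^ i * m.factorial := by
            have : x ^ i = x ^ m * x ^ (i - m) := by rw [← pow_add]; congr 1; omega
            rw [this, div_pow]; field_simp

include hy hxy hx in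
/-- Few indices with close values at distance `d`. -/
theorem close_card {n b : ℕ} (hG : Good x y n b) {Kc : ℕ} (hK : 32 * (x / y) + 1 ≤ Kc) {m : ℕ}
    (hm : n ≤ m) (U : Finset ℕ) (hU : U ⊆ Finset.Ico n (n + b)) (l : ℕ → ℕ) (G : ℕ → ℝ)
    (hGl : ∀ i ∈ U, G i = Fl x i - l i * Real.log (x / y)) (d : ℕ) (hd : 1 ≤ d) :
    (U.filter (fun i => i + d ∈ U ∧ |G i - G (i + d)| < 8 * (x / y) / (m + 1))).card ≤ Kc := by
  classical
  obtain ⟨L, hL⟩ : ∃ L, L = Real.log (x / y) := ⟨_, rfl⟩
  obtain ⟨A, hA⟩ : ∃ A, A = U.filter (fun i => i + d ∈ U ∧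
    |G i - G (i + d)| < 8 * (x / y) / (m + 1)) := ⟨_, rfl⟩
  rw [← hA]
  rw [← hL] at hGl
  have hLpos : 0 < L := by rw [hL]; exact Real.log_pos (by rw [lt_div_iff₀ hy]; linarith)
  have hlam : 0 < x / y := div_pos (hy.trans hxy) hy
  have hnm : (n : ℝ) ≤ m := by exact_mod_cast hm
  have hn2 : (2 : ℝ) ≤ n := by exact_mod_cast hG.hn
  have h3 := hG.h3
  have h2 := hG.h2
  rw [← hL] at h3 h2
  have heta : 8 * (x / y) / (m + 1) ≤ L / 8 := by
    rw [div_le_div_iff₀ (by positivity) (by norm_num)]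
    nlinarith
  have key : ∀ i1 ∈ A, ∀ i2 ∈ A, i1 ≤ i2 → ((i2 : ℝ) - i1) ≤ 32 * (x / y) := by
    intro i1 hi1 i2 hi2 h12
    rw [hA, Finset.mem_filter] at hi1 hi2
    obtain ⟨a1, a2, a3⟩ := hi1
    obtain ⟨b1, b2, b3⟩ := hi2
    have c1 := Finset.mem_Ico.1 (hU a1)
    have c2 := Finset.mem_Ico.1 (hU a2)
    have c3 := Finset.mem_Ico.1 (hU b1)
    have c4 := Finset.mem_Ico.1 (hU b2)
    have hbn := hG.hb
    obtain ⟨e1, e2⟩ := hd_bounds (x := x) (y := y) hy hxy (n := n) (d := d) i1 (by omega) c1.1 i2 h12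
      (by omega)
    rw [hGl _ a1, hGl _ a2] at a3
    rw [hGl _ b1, hGl _ b2] at b3
    obtain ⟨D, hD⟩ : ∃ D, D = (Fl x i2 - Fl x (i2 + d)) - (Fl x i1 - Fl x (i1 + d)) := ⟨_, rfl⟩
    rw [← hD] at e1 e2
    obtain ⟨k, hk⟩ : ∃ k : ℤ, k = ((l (i2 + d) : ℤ) - l i2) - ((l (i1 + d) : ℤ) - l i1) := ⟨_, rfl⟩
    have hk' : (k : ℝ) = ((l (i2 + d) : ℝ) - l i2) - ((l (i1 + d) : ℝ) - l i1) := by
      rw [hk]; push_cast; ring
    have h12' : (i1 : ℝ) ≤ i2 := by exact_mod_cast h12
    have hD0 : 0 ≤ D := le_trans (by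
      have : (0 : ℝ) ≤ i2 - i1 := by linarith
      positivity) e1
    have hD1 : D ≤ L / 2 := by
      refine e2.trans ?_
      rw [div_le_iff₀ (by linarith)]
      have f1 : ((i2 : ℝ) - i1) ≤ b := by
        have : i2 ≤ i1 + b := by omega
        have : (i2 : ℝ) ≤ i1 + b := by exact_mod_cast this
        linarith
      have f2 : (d : ℝ) ≤ b := by
        have : d ≤ b := by omega
        exact_mod_cast this
      have f3 : ((i2 : ℝ) - i1) * d ≤ (b : ℝ) * b := mul_le_mul f1 f2 (by positivity) (by positivity)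
      nlinarith
    rw [abs_lt] at a3 b3
    have g1 : |D + k * L| < L / 4 := by
      rw [hk', hD, abs_lt]
      constructor <;> nlinarith [a3.1, a3.2, b3.1, b3.2]
    have hk0 : k = 0 := by
      rw [abs_lt] at g1
      have g2 : (k : ℝ) * L < 1 * L := by linarith [g1.2]
      have g3 : (-1 : ℝ) * L < k * L := by linarith [g1.1]
      have g4 : (k : ℝ) < 1 := lt_of_mul_lt_mul_right g2 hLpos.le
      have g5 : (-1 : ℝ) < k := lt_of_mul_lt_mul_right g3 hLpos.le
      have g6 : k < 1 := by exact_mod_cast g4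
      have g7 : -1 < k := by exact_mod_cast g5
      omega
    have g2 : D < 2 * (8 * (x / y) / (m + 1)) := by
      have : D = D + k * L := by rw [hk0]; simp
      rw [this, hk', hD]
      nlinarith [a3.1, a3.2, b3.1, b3.2]
    have g3 := e1.trans_lt g2
    have hd1 : (1 : ℝ) ≤ d := by exact_mod_cast hd
    have g4 : ((i2 : ℝ) - i1) * 1 ≤ ((i2 : ℝ) - i1) * d :=
      mul_le_mul_of_nonneg_left hd1 (by linarith)
    have g5 : 2 * (8 * (x / y) / (m + 1)) ≤ 2 * (8 * (x / y) / n) := by
      have : 8 * (x / y) / (m + 1) ≤ 8 * (x / y) / n := by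
        apply div_le_div_of_nonneg_left (by positivity) (by linarith) (by linarith)
      linarith
    have g6 : ((i2 : ℝ) - i1) * d / (2 * n) < 2 * (8 * (x / y) / n) := lt_of_lt_of_le g3 g5
    rw [div_lt_iff₀ (by linarith)] at g6
    have g7 : 2 * (8 * (x / y) / n) * (2 * n) = 32 * (x / y) := by field_simp; ring
    rw [g7] at g6
    linarith
  rcases A.eq_empty_or_nonempty with h0 | hne
  · rw [h0]; simp
  · have hmin := A.min'_mem hne
    have hsub : A ⊆ Finset.Icc (A.min' hne) (A.min' hne + ⌊32 * (x / y)⌋₊) := by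
      intro i hi
      rw [Finset.mem_Icc]
      have h1 := A.min'_le i hi
      refine ⟨h1, ?_⟩
      have h4 := key _ hmin i hi h1
      have h5 : ((i - A.min' hne : ℕ) : ℝ) ≤ 32 * (x / y) := by
        rw [Nat.cast_sub h1]; exact h4
      have h6 := Nat.le_floor h5
      omega
    have h4 := Finset.card_le_card hsub
    rw [Nat.card_Icc] at h4
    have h5 : ⌊32 * (x / y)⌋₊ + 1 ≤ Kc := by
      have h6 := Nat.floor_le (show 0 ≤ 32 * (x / y) by positivity)
      have h7 : ((⌊32 * (x / y)⌋₊ + 1 : ℕ) : ℝ) ≤ Kc := by push_cast; linarith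
      exact_mod_cast h7
    omega

include hy hxy hx in
theorem close_pairs {n b : ℕ} (hG : Good x y n b) {Kc : ℕ} (hK : 32 * (x / y) + 1 ≤ Kc) {m : ℕ}
    (hm : n ≤ m) (U : Finset ℕ) (hU : U ⊆ Finset.Ico n (n + b)) (l : ℕ → ℕ) (G : ℕ → ℝ)
    (hGl : ∀ i ∈ U, G i = Fl x i - l i * Real.log (x / y)) :
    ((U ×ˢ U).filter (fun a => |G a.1 - G a.2| < 8 * (x / y) / (m + 1))).card ≤
      b * (1 + 2 * Kc) := by
  classical
  obtain ⟨A, hA⟩ : ∃ A : ℕ → Finset ℕ, A = fun d => U.filter (fun i => i + d ∈ U ∧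
    |G i - G (i + d)| < 8 * (x / y) / (m + 1)) := ⟨_, rfl⟩
  have hsub : (U ×ˢ U).filter (fun a => |G a.1 - G a.2| < 8 * (x / y) / (m + 1)) ⊆
      U.image (fun i => (i, i)) ∪
      ((Finset.Ico 1 b).biUnion (fun d => (A d).image (fun i => (i, i + d))) ∪
      (Finset.Ico 1 b).biUnion (fun d => (A d).image (fun i => (i + d, i)))) := by
    rintro ⟨i, i'⟩ ha
    rw [Finset.mem_filter, Finset.mem_product] at ha
    obtain ⟨⟨h1, h2⟩, h3⟩ := ha
    simp only at h1 h2 h3
    have c1 := Finset.mem_Ico.1 (hU h1)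
    have c2 := Finset.mem_Ico.1 (hU h2)
    rw [Finset.mem_union, Finset.mem_union]
    rcases lt_trichotomy i i' with h | h | h
    · right; left
      rw [Finset.mem_biUnion]
      refine ⟨i' - i, Finset.mem_Ico.2 ⟨by omega, by omega⟩, ?_⟩
      rw [Finset.mem_image]
      refine ⟨i, ?_, ?_⟩
      · rw [hA, Finset.mem_filter, show i + (i' - i) = i' by omega]
        exact ⟨h1, h2, h3⟩
      · rw [show i + (i' - i) = i' by omega]
    · left
      rw [Finset.mem_image]
      exact ⟨i, h1, by rw [h]⟩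
    · right; right
      rw [Finset.mem_biUnion]
      refine ⟨i - i', Finset.mem_Ico.2 ⟨by omega, by omega⟩, ?_⟩
      rw [Finset.mem_image]
      refine ⟨i', ?_, ?_⟩
      · rw [hA, Finset.mem_filter, show i' + (i - i') = i by omega, abs_sub_comm]
        exact ⟨h2, h1, h3⟩
      · rw [show i' + (i - i') = i by omega]
  have hUb : U.card ≤ b := by
    have := Finset.card_le_card hU
    rw [Nat.card_Ico] at this
    omega
  have hAd : ∀ d ∈ Finset.Ico 1 b, (A d).card ≤ Kc := by
    intro d hd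
    rw [hA]
    exact close_card hy hxy hx hG hK hm U hU l G hGl d (Finset.mem_Ico.1 hd).1
  have hb1 : ∀ f : ℕ → ℕ → ℕ × ℕ, ((Finset.Ico 1 b).biUnion (fun d => (A d).image (f d))).card ≤
      b * Kc := by
    intro f
    calc ((Finset.Ico 1 b).biUnion (fun d => (A d).image (f d))).card
        ≤ ∑ d ∈ Finset.Ico 1 b, ((A d).image (f d)).card := Finset.card_biUnion_le
      _ ≤ ∑ d ∈ Finset.Ico 1 b, Kc :=
          Finset.sum_le_sum fun d hd => Finset.card_image_le.trans (hAd d hd)
      _ = (b - 1) * Kc := by rw [Finset.sum_const, Nat.card_Ico, smul_eq_mul]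
      _ ≤ b * Kc := Nat.mul_le_mul_right _ (Nat.sub_le _ _)
  calc _ ≤ _ := Finset.card_le_card hsub
    _ ≤ (U.image (fun i => (i, i))).card + (((Finset.Ico 1 b).biUnion (fun d => (A d).image (fun i => (i, i + d)))).card +
      ((Finset.Ico 1 b).biUnion (fun d => (A d).image (fun i => (i + d, i)))).card) :=
        (Finset.card_union_le _ _).trans (Nat.add_le_add_left (Finset.card_union_le _ _) _)
    _ ≤ b + (b * Kc + b * Kc) := by
        refine add_le_add (Finset.card_image_le.trans hUb) (add_le_add ?_ ?_)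
        · exact hb1 (fun d i => (i, i + d))
        · exact hb1 (fun d i => (i + d, i))
    _ = b * (1 + 2 * Kc) := by ring

include hy hxy hx in
theorem select {n b : ℕ} (hG : Good x y n b) {Kc : ℕ} (hK : 32 * (x / y) + 1 ≤ Kc) {m : ℕ}
    (hm : n ≤ m) (hm' : m < n + b) (U : Finset ℕ) (hU : U ⊆ Finset.Ico n (n + b))
    (hcard : b ≤ 2 * U.card) :
    ∃ P ⊆ U, b ≤ 8 * (1 + 2 * Kc) * P.card ∧ ∃ V : ℕ → ℝ, ∀ i ∈ P,
      (∃ t ∈ Tm x y i, V i = t / i.factorial) ∧ 0 ≤ V i ∧ V i ≤ S x y m ∧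
      ∀ i' ∈ P, i ≠ i' → 8 * S x y (m + 1) ≤ |V i - V i'| := by
  classical
  have hx0 : 0 < x := hy.trans hxy
  obtain ⟨u1, u2, u3, u4⟩ := mu_props hy hxy hx
  have hreach : ∀ i ∈ U, ∃ l ≤ i, S x y m * (y / x) < x ^ (i - l) * y ^ l / i.factorial ∧
      x ^ (i - l) * y ^ l / i.factorial ≤ S x y m := by
    intro i hi
    have c := Finset.mem_Ico.1 (hU hi)
    obtain ⟨r1, r2⟩ := reachable hy hxy hx hG hm hm' c.1 c.2
    exact reach hy hxy hx r1 r2
  choose! l hl1 hl2 hl3 using hreach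
  obtain ⟨V, hV⟩ : ∃ V : ℕ → ℝ, V = fun i => x ^ (i - l i) * y ^ (l i) / i.factorial := ⟨_, rfl⟩
  have hVpos : ∀ i, 0 < V i := by intro i; rw [hV]; positivity
  have hlog : ∀ i ∈ U, Real.log (V i) = Fl x i - l i * Real.log (x / y) := by
    intro i hi
    have h1 : V i = (x ^ i / i.factorial) / (x / y) ^ (l i) := by
      rw [hV]
      have : x ^ i = x ^ (i - l i) * x ^ (l i) := by
        rw [← pow_add]; congr 1; have := hl1 i hi; omega
      simp only
      rw [this, div_pow]
      field_simp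
    rw [h1, Real.log_div (by positivity) (by positivity), Real.log_pow]
    rfl
  have hpairs := close_pairs hy hxy hx hG hK hm U hU l (fun i => Real.log (V i)) hlog
  have heta : 0 < 8 * (x / y) / ((m : ℝ) + 1) := by positivity
  obtain ⟨P, hPU, hPc, hPs⟩ := exists_sep U (fun i => Real.log (V i)) heta _ hpairs
  refine ⟨P, hPU, ?_, V, ?_⟩
  · rcases Nat.eq_zero_or_pos b with hb0 | hb0
    · rw [hb0]; exact Nat.zero_le _
    · have h1 : b * b ≤ b * (8 * (1 + 2 * Kc) * P.card) := by
        calc b * b ≤ (2 * U.card) * (2 * U.card) := Nat.mul_le_mul hcard hcard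
          _ = 4 * U.card ^ 2 := by ring
          _ ≤ 4 * (2 * (b * (1 + 2 * Kc)) * P.card) := Nat.mul_le_mul_left _ hPc
          _ = b * (8 * (1 + 2 * Kc) * P.card) := by ring
      exact Nat.le_of_mul_le_mul_left h1 hb0
  · intro i hi
    refine ⟨⟨x ^ (i - l i) * y ^ (l i), ⟨l i, hl1 i (hPU hi), rfl⟩, by rw [hV]⟩, (hVpos i).le, ?_, ?_⟩
    · rw [hV]; exact hl3 i (hPU hi)
    · intro i' hi' hne
      have hs := hPs i hi i' hi' hne
      have hlow : ∀ j ∈ P, S x y m * (y / x) < V j := by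
        intro j hj; rw [hV]; exact hl2 j (hPU hj)
      have hgen : ∀ a c : ℝ, 0 < a → 0 < c → S x y m * (y / x) < c →
          8 * (x / y) / ((m : ℝ) + 1) ≤ Real.log a - Real.log c → 8 * S x y (m + 1) ≤ a - c := by
        intro a c ha hc hc' hac
        rw [← Real.log_div ha.ne' hc.ne'] at hac
        have h1 := Real.log_le_sub_one_of_pos (div_pos ha hc)
        have h2 : 8 * (x / y) / ((m : ℝ) + 1) * c ≤ a - c := by
          have h3 : 8 * (x / y) / ((m : ℝ) + 1) ≤ a / c - 1 := hac.trans h1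
          have h4 := mul_le_mul_of_nonneg_right h3 hc.le
          have h5 : (a / c - 1) * c = a - c := by field_simp
          rwa [h5] at h4
        refine le_trans ?_ h2
        have h3 : 8 * (x / y) / ((m : ℝ) + 1) * (S x y m * (y / x)) ≤
            8 * (x / y) / ((m : ℝ) + 1) * c := mul_le_mul_of_nonneg_left hc'.le heta.le
        refine le_trans ?_ h3
        have h4 : 8 * (x / y) / ((m : ℝ) + 1) * (S x y m * (y / x)) = 8 * (S x y m * (1 / (m + 1))) := by
          field_simp
        rw [h4, S_succ hy hxy hx]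
        have hS := S_pos hy hxy hx m
        have h5 : mu x y / ((m : ℝ) + 1) ≤ 1 / (m + 1) := by
          apply div_le_div_of_nonneg_right _ (by positivity)
          linarith
        have := mul_le_mul_of_nonneg_left h5 hS.le
        linarith
      rcases le_abs.1 hs with h | h
      · exact (hgen _ _ (hVpos i) (hVpos i') (hlow i' hi') h).trans (le_abs_self _)
      · rw [abs_sub_comm]
        refine (hgen _ _ (hVpos i') (hVpos i) (hlow i hi) ?_).trans (le_abs_self _)
        linarith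

include hy hxy hx in
/-- Completing a node. -/
theorem fill {n b : ℕ} (hG : Good x y n b) (U : Finset ℕ) (hU : U ⊆ Finset.Ico n (n + b)) :
    ∀ m, n ≤ m → m + U.card ≤ n + b →
    ∃ v, Rep x y U v ∧ 0 ≤ v ∧ v ≤ 2 * S x y m - 2 * S x y (m + U.card) := by
  classical
  induction U using Finset.induction_on with
  | empty =>
    intro m _ _
    exact ⟨0, ⟨fun _ => 0, by simp, by simp⟩, le_rfl, by simp⟩
  | insert a s ha ih =>
    intro m hm hc
    rw [Finset.card_insert_of_notMem ha] at hc ⊢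
    have hs : s ⊆ Finset.Ico n (n + b) := (Finset.subset_insert a s).trans hU
    obtain ⟨v, hv1, hv2, hv3⟩ := ih hs (m + 1) (by omega) (by omega)
    have c := Finset.mem_Ico.1 (hU (Finset.mem_insert_self a s))
    obtain ⟨r1, r2⟩ := reachable hy hxy hx hG hm (by omega) c.1 c.2
    obtain ⟨l, hl, h1, h2⟩ := reach hy hxy hx r1 r2
    have hrep := rep_union (Finset.disjoint_singleton_left.2 ha)
      (rep_singleton (x := x) (y := y) (i := a) ⟨l, hl, rfl⟩) hv1
    rw [← Finset.insert_eq] at hrep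
    have hx0 : 0 < x := hy.trans hxy
    refine ⟨_, hrep, by positivity, ?_⟩
    have h3 := S_half hy hxy hx m (by have := hG.hn; omega)
    rw [show m + (s.card + 1) = m + 1 + s.card by ring]
    linarith

include hy hxy hx in
/-- The tree of values. -/
theorem tree {n b : ℕ} (hG : Good x y n b) {Kc : ℕ} (hK : 32 * (x / y) + 1 ≤ Kc) {M : ℕ}
    (hM : 8 * (1 + 2 * Kc) * M ≤ b) (k : ℕ) :
    ∀ (U : Finset ℕ) (m : ℕ), U ⊆ Finset.Ico n (n + b) → n ≤ m → m + U.card ≤ n + b →
    b + 2 * k ≤ 2 * U.card →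
    ∃ Y : Finset ℝ, M ^ k ≤ Y.card ∧
      (∀ v ∈ Y, Rep x y U v ∧ 0 ≤ v ∧ v ≤ 2 * S x y m - 2 * S x y (m + U.card)) ∧
      (∀ v ∈ Y, ∀ v' ∈ Y, v ≠ v' → 4 * S x y (m + k) ≤ |v - v'|) := by
  classical
  induction k with
  | zero =>
    intro U m hU hm hc _
    obtain ⟨v, hv⟩ := fill hy hxy hx hG U hU m hm hc
    refine ⟨{v}, by simp, ?_, ?_⟩
    · intro w hw; rw [Finset.mem_singleton] at hw; subst hw; exact hv
    · intro w hw w' hw' hne
      rw [Finset.mem_singleton] at hw hw'
      exact absurd (hw.trans hw'.symm) hne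
  | succ k ih =>
    intro U m hU hm hc hk
    obtain ⟨P, hPU, hPc, V, hV⟩ := select hy hxy hx hG hK hm (by omega) U hU (by omega)
    have hMP : M ≤ P.card := by
      have h1 : 8 * (1 + 2 * Kc) * M ≤ 8 * (1 + 2 * Kc) * P.card := hM.trans hPc
      exact Nat.le_of_mul_le_mul_left h1 (by omega)
    have hchild : ∀ i ∈ P, ∃ Y : Finset ℝ, M ^ k ≤ Y.card ∧
        (∀ v ∈ Y, Rep x y (U.erase i) v ∧ 0 ≤ v ∧ v ≤ 2 * S x y (m + 1) -
          2 * S x y (m + U.card)) ∧
        (∀ v ∈ Y, ∀ v' ∈ Y, v ≠ v' → 4 * S x y (m + (k + 1)) ≤ |v - v'|) := by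
      intro i hi
      have hce := Finset.card_erase_of_mem (hPU hi)
      obtain ⟨Y, h1, h2, h3⟩ := ih (U.erase i) (m + 1) ((Finset.erase_subset _ _).trans hU)
        (by omega) (by omega) (by omega)
      refine ⟨Y, h1, ?_, ?_⟩
      · rw [show m + U.card = m + 1 + (U.erase i).card by omega]; exact h2
      · rw [show m + (k + 1) = m + 1 + k by ring]; exact h3
    choose! Y hY1 hY2 hY3 using hchild
    have hhalf := S_half hy hxy hx m (by have := hG.hn; omega)
    have hSm1 := S_pos hy hxy hx (m + 1)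
    have hSc := S_pos hy hxy hx (m + U.card)
    have hSk : S x y (m + (k + 1)) ≤ S x y (m + 1) := S_antitone hy hxy hx (by omega)
    have hfar : ∀ i ∈ P, ∀ i' ∈ P, i ≠ i' → ∀ v ∈ Y i, ∀ v' ∈ Y i',
        4 * S x y (m + (k + 1)) ≤ |V i + v - (V i' + v')| := by
      intro i hi i' hi' hne v hv v' hv'
      obtain ⟨_, _, _, h4⟩ := hV i hi
      have h5 := h4 i' hi' hne
      obtain ⟨_, a2, a3⟩ := hY2 i hi v hv
      obtain ⟨_, b2, b3⟩ := hY2 i' hi' v' hv'
      rcases le_abs.1 h5 with h | h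
      · exact le_trans (by linarith) (le_abs_self _)
      · exact le_trans (by linarith) (neg_le_abs _)
    refine ⟨P.biUnion (fun i => (Y i).image (fun v => V i + v)), ?_, ?_, ?_⟩
    · rw [Finset.card_biUnion]
      · calc M ^ (k + 1) = M * M ^ k := by rw [pow_succ]; ring
          _ ≤ P.card * M ^ k := Nat.mul_le_mul_right _ hMP
          _ = ∑ _i ∈ P, M ^ k := by rw [Finset.sum_const, smul_eq_mul]
          _ ≤ ∑ i ∈ P, ((Y i).image (fun v => V i + v)).card := by
            refine Finset.sum_le_sum fun i hi => ?_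
            rw [Finset.card_image_of_injective _ (add_right_injective _)]
            exact hY1 i hi
      · intro i hi i' hi' hne
        rw [Function.onFun, Finset.disjoint_left]
        intro w hw hw'
        rw [Finset.mem_image] at hw hw'
        obtain ⟨v, hv, rfl⟩ := hw
        obtain ⟨v', hv', h⟩ := hw'
        have := hfar i hi i' hi' hne v hv v' hv'
        rw [h] at this
        simp only [sub_self, abs_zero] at this
        have h2 := S_pos hy hxy hx (m + (k + 1))
        linarith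
    · intro w hw
      rw [Finset.mem_biUnion] at hw
      obtain ⟨i, hi, hw⟩ := hw
      rw [Finset.mem_image] at hw
      obtain ⟨v, hv, rfl⟩ := hw
      obtain ⟨⟨t, ht, hVt⟩, h2, h3, _⟩ := hV i hi
      obtain ⟨a1, a2, a3⟩ := hY2 i hi v hv
      refine ⟨?_, by linarith, by linarith⟩
      rw [hVt]
      have hd : Disjoint ({i} : Finset ℕ) (U.erase i) := by
        rw [Finset.disjoint_singleton_left]; exact Finset.notMem_erase _ _
      have := rep_union hd (rep_singleton ht) a1
      rwa [← Finset.insert_eq, Finset.insert_erase (hPU hi)] at this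
    · intro w hw w' hw' hne
      rw [Finset.mem_biUnion] at hw hw'
      obtain ⟨i, hi, hw⟩ := hw
      obtain ⟨i', hi', hw'⟩ := hw'
      rw [Finset.mem_image] at hw hw'
      obtain ⟨v, hv, rfl⟩ := hw
      obtain ⟨v', hv', rfl⟩ := hw'
      by_cases hii : i = i'
      · subst hii
        have hvv : v ≠ v' := by rintro rfl; exact hne rfl
        have := hY3 i hi v hv v' hv' hvv
        rwa [add_sub_add_left_eq_sub]
      · exact hfar i hi i' hi' hii v hv v' hv'

include hy hxy hx in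
/-- The block lemma. -/
theorem block {n b : ℕ} (hG : Good x y n b) {Kc : ℕ} (hK : 32 * (x / y) + 1 ≤ Kc) {M : ℕ}
    (hM : 8 * (1 + 2 * Kc) * M ≤ b) :
    ∃ z : ℕ → ℝ, (∀ c, Rep x y (Finset.Ico n (n + b)) (z c) ∧ 0 ≤ z c ∧
        z c ≤ 2 * S x y n - 2 * S x y (n + b)) ∧
      (∀ c < M ^ (b / 2), ∀ c' < M ^ (b / 2), c ≠ c' → 4 * S x y (n + b) ≤ |z c - z c'|) := by
  classical
  have hcard : (Finset.Ico n (n + b)).card = b := by rw [Nat.card_Ico]; omega
  obtain ⟨Y, hY1, hY2, hY3⟩ := tree hy hxy hx hG hK hM (b / 2) (Finset.Ico n (n + b)) n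
    (Finset.Subset.refl _) le_rfl (by omega) (by omega)
  rw [hcard] at hY2
  obtain ⟨v0, hv0⟩ := fill hy hxy hx hG (Finset.Ico n (n + b)) (Finset.Subset.refl _) n le_rfl
    (by omega)
  rw [hcard] at hv0
  obtain ⟨e⟩ : Nonempty (Fin Y.card ≃ Y) := ⟨Y.equivFin.symm⟩
  refine ⟨fun c => if h : c < Y.card then (e ⟨c, h⟩ : ℝ) else v0, ?_, ?_⟩
  · intro c
    by_cases h : c < Y.card
    · simp only [h, dif_pos]
      exact hY2 _ (e ⟨c, h⟩).2
    · simp only [h, dif_neg, not_false_eq_true]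
      exact hv0
  · intro c hc c' hc' hne
    have h1 : c < Y.card := hc.trans_le hY1
    have h2 : c' < Y.card := hc'.trans_le hY1
    simp only [h1, h2, dif_pos]
    have h3 := hY3 _ (e ⟨c, h1⟩).2 _ (e ⟨c', h2⟩).2 (by
      intro h
      apply hne
      have := e.injective (Subtype.ext h)
      simpa using this)
    refine le_trans ?_ h3
    have := S_antitone hy hxy hx (show n + b / 2 ≤ n + b by omega)
    linarith

end

end Pool.Agent.Q3.ExpK
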