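import Mathlib

/-!
# The exponential series at a compact set
-/

set_option autoImplicit false

open Filter Topology Set TopologicalSpace
open scoped Pointwise

namespace Pool.Agent.Q3.ExpK

/-- The partial Minkowski sum `∑_{i ≤ n} (1/i!) A^{(i)}`; here `A ^ i` is the Minkowski product of
`i` copies of `A` (with `A ^ 0 = {1}`). -/
noncomputable def pexp (A : Set ℝ) (n : ℕ) : Set ℝ :=
  ∑ i ∈ Finset.range (n + 1), ((i.factorial : ℝ)⁻¹) • A ^ i

theorem pexp_succ (A : Set ℝ) (n : ℕ) :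
    pexp A (n + 1) = pexp A n + (((n + 1).factorial : ℝ)⁻¹) • A ^ (n + 1) := by
  unfold pexp
  rw [Finset.sum_range_succ]

theorem isCompact_pow {A : Set ℝ} (h : IsCompact A) (n : ℕ) : IsCompact (A ^ n) := by
  induction n with
  | zero => rw [pow_zero]; exact isCompact_singleton
  | succ n ih => rw [pow_succ]; exact ih.mul h

theorem isCompact_pexp {A : Set ℝ} (h : IsCompact A) (n : ℕ) : IsCompact (pexp A n) := by
  induction n with
  | zero =>
    unfold pexp
    rw [zero_add, Finset.sum_range_one]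
    exact (isCompact_pow h 0).smul _
  | succ n ih => rw [pexp_succ]; exact ih.add ((isCompact_pow h _).smul _)

theorem nonempty_pexp {A : Set ℝ} (h : A.Nonempty) (n : ℕ) : (pexp A n).Nonempty := by
  obtain ⟨a, ha⟩ := h
  refine ⟨∑ i ∈ Finset.range (n + 1), ((i.factorial : ℝ)⁻¹) • a ^ i, ?_⟩
  exact Set.finsetSum_mem_finsetSum _ _ _ fun i _ => Set.smul_mem_smul_set (Set.pow_mem_pow ha)

/-- The subset of `ℝ` given by a compact subset of `[0,1]`. -/
def real (K : NonemptyCompacts (Icc (0 : ℝ) 1)) : Set ℝ := Subtype.val '' (K : Set (Icc (0 : ℝ) 1))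

theorem isCompact_real (K : NonemptyCompacts (Icc (0 : ℝ) 1)) : IsCompact (real K) :=
  K.isCompact.image continuous_subtype_val

theorem nonempty_real (K : NonemptyCompacts (Icc (0 : ℝ) 1)) : (real K).Nonempty :=
  K.nonempty.image _

/-- The partial sums as points of the hyperspace. -/
noncomputable def pexpC (K : NonemptyCompacts (Icc (0 : ℝ) 1)) (n : ℕ) : NonemptyCompacts ℝ :=
  ⟨⟨pexp (real K) n, isCompact_pexp (isCompact_real K) n⟩, nonempty_pexp (nonempty_real K) n⟩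

/-- `exp(K)`, the limit of the partial Minkowski sums in the Hausdorff metric. -/
noncomputable def expK (K : NonemptyCompacts (Icc (0 : ℝ) 1)) : NonemptyCompacts ℝ :=
  limUnder atTop (pexpC K)

theorem pow_mem_Icc {A : Set ℝ} (h : A ⊆ Icc 0 1) (n : ℕ) : A ^ n ⊆ Icc 0 1 := by
  induction n with
  | zero => rw [pow_zero]; intro t ht; rw [Set.mem_one] at ht; rw [ht]; constructor <;> norm_num
  | succ n ih =>
    rw [pow_succ]
    intro t ht
    obtain ⟨a, ha, b, hb, rfl⟩ := Set.mem_mul.1 ht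
    have h1 := ih ha
    have h2 := h hb
    exact ⟨mul_nonneg h1.1 h2.1, mul_le_one₀ h1.2 h2.1 h2.2⟩

theorem two_pow_le (n : ℕ) : 2 ^ n ≤ (n + 1).factorial := by
  induction n with
  | zero => simp
  | succ n ih =>
    rw [pow_succ, Nat.factorial_succ (n + 1)]
    nlinarith

theorem dist_pexpC (K : NonemptyCompacts (Icc (0 : ℝ) 1)) (n : ℕ) :
    dist (pexpC K n) (pexpC K (n + 1)) ≤ 1 * (1 / 2) ^ n := by
  rw [Metric.NonemptyCompacts.dist_eq]
  show Metric.hausdorffDist (pexp (real K) n) (pexp (real K) (n + 1)) ≤ _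
  have hA : real K ⊆ Icc 0 1 := by
    rintro _ ⟨a, _, rfl⟩; exact a.2
  have hf : (((n + 1).factorial : ℝ)⁻¹) ≤ 1 * (1 / 2) ^ n := by
    rw [one_mul, one_div, inv_pow]
    apply inv_anti₀ (by positivity)
    exact_mod_cast two_pow_le n
  have hf0 : 0 < (((n + 1).factorial : ℝ)⁻¹) := by positivity
  have hB : ∀ t ∈ (((n + 1).factorial : ℝ)⁻¹) • (real K) ^ (n + 1), 0 ≤ t ∧ t ≤ 1 * (1 / 2) ^ n := by
    intro t ht
    obtain ⟨s, hs, rfl⟩ := Set.mem_smul_set.1 ht
    have := pow_mem_Icc hA (n + 1) hs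
    rw [smul_eq_mul]
    constructor
    · exact mul_nonneg hf0.le this.1
    · calc (((n + 1).factorial : ℝ)⁻¹) * s ≤ (((n + 1).factorial : ℝ)⁻¹) * 1 :=
          mul_le_mul_of_nonneg_left this.2 hf0.le
        _ ≤ _ := by rw [mul_one]; exact hf
  rw [pexp_succ]
  refine Metric.hausdorffDist_le_of_mem_dist (by positivity) ?_ ?_
  · intro v hv
    obtain ⟨a, ha⟩ := nonempty_real K
    have ht := Set.smul_mem_smul_set (a := (((n + 1).factorial : ℝ)⁻¹))
      (Set.pow_mem_pow (n := n + 1) ha)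
    refine ⟨_, Set.add_mem_add hv ht, ?_⟩
    rw [Real.dist_eq, sub_add_cancel_left, abs_neg, abs_of_nonneg (hB _ ht).1]
    exact (hB _ ht).2
  · intro v hv
    obtain ⟨a, ha, b, hb, rfl⟩ := Set.mem_add.1 hv
    refine ⟨a, ha, ?_⟩
    rw [Real.dist_eq, add_sub_cancel_left, abs_of_nonneg (hB _ hb).1]
    exact (hB _ hb).2

theorem tendsto_expK (K : NonemptyCompacts (Icc (0 : ℝ) 1)) :
    Tendsto (pexpC K) atTop (𝓝 (expK K)) := by
  apply tendsto_nhds_limUnder
  exact cauchySeq_tendsto_of_complete (cauchySeq_of_le_geometric (1 / 2) 1 (by norm_num)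
    (dist_pexpC K))

theorem mem_expK (K : NonemptyCompacts (Icc (0 : ℝ) 1)) {u : ℕ → ℕ} (hu : Tendsto u atTop atTop)
    {v : ℕ → ℝ} (hv : ∀ k, v k ∈ pexp (real K) (u k)) {p : ℝ} (hp : Tendsto v atTop (𝓝 p)) :
    p ∈ (expK K : Set ℝ) := by
  have h1 : Tendsto (fun k => dist (pexpC K (u k)) (expK K)) atTop (𝓝 0) :=
    (tendsto_iff_dist_tendsto_zero.1 (tendsto_expK K)).comp hu
  have h2 : ∀ k, Metric.infDist (v k) (expK K : Set ℝ) ≤ dist (pexpC K (u k)) (expK K) := by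
    intro k
    rw [Metric.NonemptyCompacts.dist_eq]
    exact Metric.infDist_le_hausdorffDist_of_mem (hv k)
      (Metric.hausdorffEDist_ne_top_of_nonempty_of_bounded (pexpC K (u k)).nonempty
        (expK K).nonempty (pexpC K (u k)).isCompact.isBounded (expK K).isCompact.isBounded)
  have h3 : Tendsto (fun k => Metric.infDist (v k) (expK K : Set ℝ)) atTop
      (𝓝 (Metric.infDist p (expK K : Set ℝ))) :=
    ((Metric.continuous_infDist_pt _).tendsto p).comp hp
  have h4 : Metric.infDist p (expK K : Set ℝ) = 0 := by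
    apply tendsto_nhds_unique h3
    exact squeeze_zero (fun k => Metric.infDist_nonneg) h2 h1
  exact ((expK K).isCompact.isClosed.mem_iff_infDist_zero (expK K).nonempty).2 h4

/-- `K` has two distinct positive points. -/
def TwoPos (K : NonemptyCompacts (Icc (0 : ℝ) 1)) : Prop :=
  ∃ x ∈ real K, ∃ y ∈ real K, 0 < y ∧ y < x

theorem isOpen_twoPos : IsOpen {K | TwoPos K} := by
  rw [Metric.isOpen_iff]
  rintro K ⟨x, hx, y, hy, h0, hxy⟩
  obtain ⟨δ, hδ⟩ : ∃ δ, δ = min (y / 2) ((x - y) / 2) := ⟨_, rfl⟩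
  have hδ0 : 0 < δ := by rw [hδ]; apply lt_min <;> linarith
  have hδ1 : δ ≤ y / 2 := by rw [hδ]; exact min_le_left _ _
  have hδ2 : δ ≤ (x - y) / 2 := by rw [hδ]; exact min_le_right _ _
  refine ⟨δ, hδ0, ?_⟩
  intro K' hK'
  rw [Metric.mem_ball, dist_comm, Metric.NonemptyCompacts.dist_eq] at hK'
  have hfin := Metric.hausdorffEDist_ne_top_of_nonempty_of_bounded K.nonempty
        K'.nonempty K.isCompact.isBounded K'.isCompact.isBounded
  have key : ∀ a ∈ real K, ∃ b ∈ real K', |a - b| < δ := by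
    rintro _ ⟨a, ha, rfl⟩
    obtain ⟨b, hb, hab⟩ := Metric.exists_dist_lt_of_hausdorffDist_lt ha hK' hfin
    exact ⟨b, ⟨b, hb, rfl⟩, hab⟩
  obtain ⟨x', hx', h1⟩ := key x hx
  obtain ⟨y', hy', h2⟩ := key y hy
  rw [abs_lt] at h1 h2
  exact ⟨x', hx', y', hy', by linarith, by linarith⟩

theorem dense_twoPos : Dense {K | TwoPos K} := by
  rw [Metric.dense_iff]
  intro K r hr
  obtain ⟨a, ha⟩ := K.nonempty
  have ha1 := a.2
  -- two distinct positive points close to `a`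
  obtain ⟨x, y, hx, hy, h0, hxy, h1, h2⟩ : ∃ x y : ℝ, x ∈ Icc (0 : ℝ) 1 ∧ y ∈ Icc (0 : ℝ) 1 ∧
      0 < y ∧ y < x ∧ |x - a| < r ∧ |y - a| < r := by
    obtain ⟨t, ht⟩ : ∃ t, t = min (r / 4) (1 / 4) := ⟨_, rfl⟩
    have ht0 : 0 < t := by rw [ht]; apply lt_min <;> linarith
    have ht1 : t ≤ r / 4 := by rw [ht]; exact min_le_left _ _
    have ht2 : t ≤ 1 / 4 := by rw [ht]; exact min_le_right _ _
    rcases le_or_gt (a : ℝ) (1 / 2) with h | h
    · refine ⟨a + 2 * t, a + t, ⟨by linarith [ha1.1], by linarith⟩, ⟨by linarith [ha1.1], by linarith⟩,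
        by linarith [ha1.1], by linarith, ?_, ?_⟩
      · rw [add_sub_cancel_left, abs_of_pos (by linarith)]; linarith
      · rw [add_sub_cancel_left, abs_of_pos ht0]; linarith
    · refine ⟨a, a - t, ha1, ⟨by linarith, by linarith [ha1.2]⟩, by linarith, by linarith, ?_, ?_⟩
      · rw [sub_self, abs_zero]; exact hr
      · rw [sub_sub_cancel_left, abs_neg, abs_of_pos ht0]; linarith
  have hc : IsCompact ((K : Set (Icc (0 : ℝ) 1)) ∪ {⟨x, hx⟩, ⟨y, hy⟩}) :=
    K.isCompact.union (Set.toFinite _).isCompact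
  refine ⟨⟨⟨(K : Set (Icc (0 : ℝ) 1)) ∪ {⟨x, hx⟩, ⟨y, hy⟩}, hc⟩, ⟨a, Or.inl ha⟩⟩, ?_, ?_⟩
  · rw [Metric.mem_ball, Metric.NonemptyCompacts.dist_eq]
    obtain ⟨ρ, hρ1, hρ2⟩ : ∃ ρ, max |x - a| |y - a| ≤ ρ ∧ ρ < r := ⟨_, le_rfl, max_lt h1 h2⟩
    refine lt_of_le_of_lt ?_ hρ2
    have hρ0 : 0 ≤ ρ := (abs_nonneg _).trans ((le_max_left _ _).trans hρ1)
    refine Metric.hausdorffDist_le_of_mem_dist hρ0 ?_ ?_
    · intro v hv
      rcases hv with hv | hv
      · exact ⟨v, hv, by rw [dist_self]; exact hρ0⟩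
      · refine ⟨a, ha, ?_⟩
        rcases hv with rfl | hv
        · exact (le_max_left _ _).trans hρ1
        · rw [Set.mem_singleton_iff] at hv
          subst hv
          exact (le_max_right _ _).trans hρ1
    · intro v hv
      exact ⟨v, Or.inl hv, by rw [dist_self]; exact hρ0⟩
  · refine ⟨x, ⟨⟨x, hx⟩, Or.inr (Or.inl rfl), rfl⟩, y, ⟨⟨y, hy⟩, Or.inr (Or.inr rfl), rfl⟩, h0, hxy⟩

end Pool.Agent.Q3.ExpK
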