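import Mathlib

/-!
# A mass distribution lemma for sums of independent choices
-/

set_option autoImplicit false

open Filter Topology Set MeasureTheory
open scoped ENNReal NNReal

namespace Pool.Agent.Q3.ExpK

section

variable (K : ℕ → ℕ)

/-- Uniform measure on `{0, …, K_n}`. -/
noncomputable def nu (n : ℕ) : Measure ℕ :=
  (PMF.uniformOfFinset (Finset.range (K n + 1)) (by rw [Finset.nonempty_range_iff]; omega)).toMeasure

instance (n : ℕ) : IsProbabilityMeasure (nu K n) := by unfold nu; infer_instance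

/-- The product measure. -/
noncomputable def PP : Measure (ℕ → ℕ) := Measure.infinitePi (nu K)

instance : IsProbabilityMeasure (PP K) := by unfold PP; infer_instance

variable {K}

theorem nu_real (n : ℕ) (t : Set ℕ) [DecidablePred (· ∈ t)] :
    (nu K n).real t = (((Finset.range (K n + 1)).filter (· ∈ t)).card : ℝ) / (K n + 1) := by
  rw [Measure.real]
  unfold nu
  rw [PMF.toMeasure_uniformOfFinset_apply _ _ (MeasurableSet.of_discrete)]
  rw [Finset.card_range, ENNReal.toReal_div]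
  simp only [ENNReal.toReal_natCast]
  congr 1
  · congr 2
    exact Finset.filter_congr_decidable _ _ _
  · push_cast; rfl

/-- Probability of a box. -/
theorem PP_box (s : Finset ℕ) (t : ℕ → Set ℕ) :
    (PP K).real (Set.pi (s : Set ℕ) t) = ∏ m ∈ s, (nu K m).real (t m) := by
  unfold PP
  rw [Measure.real, Measure.infinitePi_pi _ fun i _ => MeasurableSet.of_discrete,
    ENNReal.toReal_prod]
  rfl

theorem measurable_box (s : Finset ℕ) (t : ℕ → Set ℕ) :
    MeasurableSet (Set.pi (s : Set ℕ) t : Set (ℕ → ℕ)) :=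
  MeasurableSet.pi s.countable_toSet fun _ _ => MeasurableSet.of_discrete

theorem ae_lt : ∀ᵐ ω ∂(PP K), ∀ n, ω n < K n + 1 := by
  classical
  rw [ae_all_iff]
  intro n
  have h1 : (PP K).real (Set.pi (({n} : Finset ℕ) : Set ℕ) (fun m => {u | u < K m + 1})) = 1 := by
    rw [PP_box, Finset.prod_singleton, nu_real]
    have e : (Finset.range (K n + 1)).filter (· ∈ {u | u < K n + 1}) = Finset.range (K n + 1) := by
      apply Finset.filter_true_of_mem
      intro u hu
      exact Finset.mem_range.1 hu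
    rw [e, Finset.card_range]
    push_cast
    rw [div_self]
    positivity
  have h2 : (PP K) (Set.pi (({n} : Finset ℕ) : Set ℕ) (fun m => {u | u < K m + 1})) = 1 := by
    rw [Measure.real] at h1
    rwa [ENNReal.toReal_eq_one_iff] at h1
  have h3 := (prob_compl_eq_zero_iff (measurable_box {n} (fun m => {u | u < K m + 1}))).2 h2
  rw [ae_iff]
  refine measure_mono_null ?_ h3
  intro ω hω hmem
  apply hω
  have := hmem n (by simp)
  exact this

theorem PP_prefix (ω₀ : ℕ → ℕ) (n : ℕ) :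
    (PP K).real (Set.pi ((Finset.range n : Finset ℕ) : Set ℕ) (fun m => {ω₀ m})) ≤
      1 / ∏ i ∈ Finset.range n, ((K i : ℝ) + 1) := by
  classical
  rw [PP_box, one_div, ← Finset.prod_inv_distrib]
  refine Finset.prod_le_prod (fun _ _ => measureReal_nonneg) fun m _ => ?_
  rw [nu_real, ← one_div]
  apply div_le_div_of_nonneg_right _ (by positivity)
  have h : ((Finset.range (K m + 1)).filter (· ∈ ({ω₀ m} : Set ℕ))) ⊆ {ω₀ m} := by
    intro u hu
    rw [Finset.mem_filter] at hu
    rw [Finset.mem_singleton]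
    exact hu.2
  have := Finset.card_le_card h
  rw [Finset.card_singleton] at this
  exact_mod_cast this

/-- The random point. -/
noncomputable def Ph (z : ℕ → ℕ → ℝ) (ω : ℕ → ℕ) : ℝ := ∑' n, z n (ω n)

section point

variable {z : ℕ → ℕ → ℝ} {D : ℕ → ℝ} (hD : ∀ n, 0 < D n)
  (hz : ∀ n c, 0 ≤ z n c ∧ z n c ≤ 2 * D n - 2 * D (n + 1))

include hD hz in
theorem summable_z (ω : ℕ → ℕ) : Summable fun n => z n (ω n) := by
  refine summable_of_sum_range_le (c := 2 * D 0) (fun n => (hz n _).1) fun n => ?_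
  have h : ∑ i ∈ Finset.range n, z i (ω i) ≤ ∑ i ∈ Finset.range n, (2 * D i - 2 * D (i + 1)) :=
    Finset.sum_le_sum fun i _ => (hz i _).2
  rw [Finset.sum_range_sub' (fun i => 2 * D i)] at h
  have := hD n
  linarith

include hD hz in
theorem tendsto_Ph (ω : ℕ → ℕ) :
    Tendsto (fun n => ∑ i ∈ Finset.range n, z i (ω i)) atTop (𝓝 (Ph z ω)) :=
  (summable_z hD hz ω).hasSum.tendsto_sum_nat

omit hD in
include hz in
theorem D_antitone {a b : ℕ} (h : a ≤ b) : D b ≤ D a := by
  induction b, h using Nat.le_induction with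
  | base => exact le_rfl
  | succ b _ ih =>
    have := hz b 0
    linarith [this.1, this.2]

include hD hz in
theorem Ph_sep (hs : ∀ n, ∀ c < K n + 1, ∀ c' < K n + 1, c ≠ c' → 4 * D (n + 1) ≤ |z n c - z n c'|)
    {ω ω' : ℕ → ℕ} (h1 : ∀ n, ω n < K n + 1) (h2 : ∀ n, ω' n < K n + 1) {q : ℕ}
    (h3 : ∀ i < q, ω i = ω' i) (h4 : ω q ≠ ω' q) : 2 * D (q + 1) ≤ |Ph z ω - Ph z ω'| := by
  have hlim : Tendsto (fun n => |∑ i ∈ Finset.range n, z i (ω i) - ∑ i ∈ Finset.range n, z i (ω' i)|)
      atTop (𝓝 |Ph z ω - Ph z ω'|) := ((tendsto_Ph hD hz ω).sub (tendsto_Ph hD hz ω')).abs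
  refine ge_of_tendsto hlim ?_
  filter_upwards [eventually_ge_atTop (q + 1)] with n hn
  rw [← Finset.sum_sub_distrib]
  have e1 : ∑ i ∈ Finset.range n, (z i (ω i) - z i (ω' i)) =
      (z q (ω q) - z q (ω' q)) + ∑ i ∈ Finset.Ico (q + 1) n, (z i (ω i) - z i (ω' i)) := by
    rw [← Finset.sum_range_add_sum_Ico _ hn, Finset.sum_range_succ]
    have : ∑ i ∈ Finset.range q, (z i (ω i) - z i (ω' i)) = 0 := by
      apply Finset.sum_eq_zero
      intro i hi
      rw [h3 i (Finset.mem_range.1 hi), sub_self]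
    rw [this, zero_add]
  have e2 : |∑ i ∈ Finset.Ico (q + 1) n, (z i (ω i) - z i (ω' i))| ≤ 2 * D (q + 1) := by
    calc |∑ i ∈ Finset.Ico (q + 1) n, (z i (ω i) - z i (ω' i))|
        ≤ ∑ i ∈ Finset.Ico (q + 1) n, |z i (ω i) - z i (ω' i)| := Finset.abs_sum_le_sum_abs _ _
      _ ≤ ∑ i ∈ Finset.Ico (q + 1) n, (2 * D i - 2 * D (i + 1)) := by
        refine Finset.sum_le_sum fun i _ => ?_
        have a1 := hz i (ω i)
        have a2 := hz i (ω' i)
        rw [abs_le]
        constructor <;> linarith [a1.1, a1.2, a2.1, a2.2]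
      _ = 2 * D (q + 1) - 2 * D n := by
        have h5 := Finset.sum_range_sub' (fun i => 2 * D i) n
        have h6 := Finset.sum_range_sub' (fun i => 2 * D i) (q + 1)
        rw [← Finset.sum_range_add_sum_Ico _ hn] at h5
        linarith
      _ ≤ 2 * D (q + 1) := by have := hD n; linarith
  have e3 := hs q _ (h1 q) _ (h2 q) h4
  rw [e1]
  have e4 := abs_sub_abs_le_abs_sub (z q (ω q) - z q (ω' q))
    (-(∑ i ∈ Finset.Ico (q + 1) n, (z i (ω i) - z i (ω' i))))
  rw [abs_neg, sub_neg_eq_add] at e4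
  linarith

theorem measurable_Ph (hD : ∀ n, 0 < D n)
    (hz : ∀ n c, 0 ≤ z n c ∧ z n c ≤ 2 * D n - 2 * D (n + 1)) : Measurable (Ph z) := by
  refine measurable_of_tendsto_metrizable (f := fun n ω => ∑ i ∈ Finset.range n, z i (ω i))
    (fun n => ?_) ?_
  · refine Finset.measurable_sum _ fun m _ => ?_
    exact (measurable_of_countable (z m)).comp (measurable_pi_apply m)
  · rw [tendsto_pi_nhds]
    intro ω
    exact tendsto_Ph hD hz ω

include hD hz in
theorem interval_small
    (hs : ∀ n, ∀ c < K n + 1, ∀ c' < K n + 1, c ≠ c' → 4 * D (n + 1) ≤ |z n c - z n c'|)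
    (hlim : Tendsto D atTop (𝓝 0)) {C d : ℝ} (hC : 0 < C) (hd : 0 < d)
    (hgrow : ∀ n, 1 / ∏ i ∈ Finset.range n, ((K i : ℝ) + 1) ≤ C * D (n + 1) ^ d)
    {r : ℝ} (hr : 0 < r) (c : ℝ) :
    (PP K).real (Ph z ⁻¹' (Icc (c - r) (c + r))) ≤ C * r ^ d := by
  classical
  have hex : ∃ q, D (q + 1) ≤ r := by
    have h1 := (hlim.comp (tendsto_add_atTop_nat 1)).eventually (gt_mem_nhds hr)
    obtain ⟨q, hq⟩ := h1.exists
    exact ⟨q, le_of_lt hq⟩
  obtain ⟨q, hq⟩ : ∃ q, q = Nat.find hex := ⟨_, rfl⟩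
  have hq1 : D (q + 1) ≤ r := by rw [hq]; exact Nat.find_spec hex
  have hq2 : ∀ p < q, r < D (p + 1) := by
    intro p hp
    rw [hq] at hp
    have := Nat.find_min hex hp
    push Not at this
    exact this
  have hbound : (PP K).real (Ph z ⁻¹' (Icc (c - r) (c + r))) ≤
      1 / ∏ i ∈ Finset.range q, ((K i : ℝ) + 1) := by
    by_cases hne : ∃ ω₀ : ℕ → ℕ, (∀ n, ω₀ n < K n + 1) ∧ Ph z ω₀ ∈ Icc (c - r) (c + r)
    · obtain ⟨ω₀, h0, h0'⟩ := hne
      refine le_trans ?_ (PP_prefix ω₀ q)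
      have h1 : ∀ᵐ ω ∂(PP K), ω ∈ Ph z ⁻¹' (Icc (c - r) (c + r)) →
          ω ∈ Set.pi ((Finset.range q : Finset ℕ) : Set ℕ) (fun m => ({ω₀ m} : Set ℕ)) := by
        filter_upwards [ae_lt] with ω hω hmem
        by_contra hcon
        have h2 : ∃ m, m < q ∧ ω m ≠ ω₀ m := by
          by_contra hall
          push Not at hall
          apply hcon
          intro m hm
          have : m < q := by simpa using hm
          exact hall m this
        obtain ⟨m, hm⟩ : ∃ m, m = Nat.find h2 := ⟨_, rfl⟩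
        have h3 := Nat.find_spec h2
        rw [← hm] at h3
        have h4 : ∀ i < m, ω i = ω₀ i := by
          intro i hi
          rw [hm] at hi
          have := Nat.find_min h2 hi
          push Not at this
          rw [← hm] at hi
          exact this (by omega)
        have h5 := Ph_sep hD hz hs hω h0 h4 h3.2
        have h6 := hq2 m h3.1
        have h7 : |Ph z ω - Ph z ω₀| ≤ 2 * r := by
          have a : Ph z ω ∈ Icc (c - r) (c + r) := hmem
          rw [abs_le]
          constructor <;> linarith [a.1, a.2, h0'.1, h0'.2]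
        linarith
      rw [Measure.real, Measure.real]
      apply ENNReal.toReal_mono (measure_ne_top _ _)
      exact measure_mono_ae h1
    · push Not at hne
      have h1 : (PP K) (Ph z ⁻¹' (Icc (c - r) (c + r))) = 0 := by
        have h2 : ∀ᵐ ω ∂(PP K), ω ∉ Ph z ⁻¹' (Icc (c - r) (c + r)) := by
          filter_upwards [ae_lt] with ω hω hmem
          exact hne ω hω hmem
        exact measure_eq_zero_iff_ae_notMem.2 h2
      rw [Measure.real, h1, ENNReal.toReal_zero]
      positivity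
  refine hbound.trans ((hgrow q).trans ?_)
  apply mul_le_mul_of_nonneg_left _ hC.le
  exact Real.rpow_le_rpow (hD _).le hq1 hd.le

include hD hz in
/-- The mass distribution principle. -/
theorem dimH_ge
    (hs : ∀ n, ∀ c < K n + 1, ∀ c' < K n + 1, c ≠ c' → 4 * D (n + 1) ≤ |z n c - z n c'|)
    (hlim : Tendsto D atTop (𝓝 0)) {C : ℝ} {d : ℝ≥0} (hC : 0 < C) (hd : 0 < d)
    (hgrow : ∀ n, 1 / ∏ i ∈ Finset.range n, ((K i : ℝ) + 1) ≤ C * D (n + 1) ^ (d : ℝ))
    {E : Set ℝ} (hE : ∀ ω, Ph z ω ∈ E) : (d : ℝ≥0∞) ≤ dimH E := by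
  have hd' : (0 : ℝ) < d := by exact_mod_cast hd
  have hle : (ENNReal.ofReal C)⁻¹ • (PP K).map (Ph z) ≤ μH[(d : ℝ)] := by
    refine Measure.le_hausdorffMeasure (d : ℝ) _ 1 one_pos ?_
    intro s hs1
    rcases s.eq_empty_or_nonempty with rfl | ⟨x0, hx0⟩
    · simp
    obtain ⟨r, hr⟩ : ∃ r, r = (Metric.ediam s).toReal := ⟨_, rfl⟩
    have hfin : Metric.ediam s ≠ ∞ := ne_top_of_le_ne_top ENNReal.one_ne_top hs1
    have hrr : Metric.ediam s = ENNReal.ofReal r := by rw [hr, ENNReal.ofReal_toReal hfin]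
    have hr0' : 0 ≤ r := by rw [hr]; exact ENNReal.toReal_nonneg
    have hbound : ∀ᶠ t : ℝ in 𝓝[>] 0, (PP K).map (Ph z) s ≤ ENNReal.ofReal (C * (r + t) ^ (d : ℝ)) := by
      filter_upwards [self_mem_nhdsWithin] with t ht
      have ht0 : 0 < t := ht
      have hsub : s ⊆ Icc (x0 - (r + t)) (x0 + (r + t)) := by
        intro y hy
        have h1 : edist y x0 ≤ Metric.ediam s := Metric.edist_le_ediam_of_mem hy hx0
        rw [hrr, edist_dist, ENNReal.ofReal_le_ofReal_iff hr0', Real.dist_eq, abs_le] at h1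
        constructor <;> linarith [h1.1, h1.2]
      refine (measure_mono hsub).trans ?_
      rw [Measure.map_apply (measurable_Ph hD hz) measurableSet_Icc]
      have h2 := interval_small hD hz hs hlim hC hd' hgrow (show 0 < r + t by linarith) x0
      rw [Measure.real] at h2
      rw [← ENNReal.ofReal_toReal (measure_ne_top (PP K) (Ph z ⁻¹' Icc (x0 - (r + t)) (x0 + (r + t))))]
      exact ENNReal.ofReal_le_ofReal h2
    have hlim' : Tendsto (fun t : ℝ => ENNReal.ofReal (C * (r + t) ^ (d : ℝ))) (𝓝[>] 0)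
        (𝓝 (ENNReal.ofReal (C * (r + 0) ^ (d : ℝ)))) := by
      apply ENNReal.tendsto_ofReal
      have hc : ContinuousAt (fun t : ℝ => C * (r + t) ^ (d : ℝ)) 0 :=
        (ContinuousAt.rpow_const (by fun_prop) (Or.inr hd'.le)).const_mul _
      exact hc.tendsto.mono_left nhdsWithin_le_nhds
    have h3 := ge_of_tendsto hlim' hbound
    rw [add_zero, ENNReal.ofReal_mul hC.le, ← ENNReal.ofReal_rpow_of_nonneg hr0' hd'.le] at h3
    rw [Measure.smul_apply, smul_eq_mul, hrr]
    have hC0 : ENNReal.ofReal C ≠ 0 := by simpa using hC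
    calc (ENNReal.ofReal C)⁻¹ * ((PP K).map (Ph z)) s
        ≤ (ENNReal.ofReal C)⁻¹ * (ENNReal.ofReal C * ENNReal.ofReal r ^ (d : ℝ)) := by gcongr
      _ = ENNReal.ofReal r ^ (d : ℝ) := by
        rw [← mul_assoc, ENNReal.inv_mul_cancel hC0 ENNReal.ofReal_ne_top, one_mul]
  have hone : 1 ≤ (PP K).map (Ph z) E := by
    have h1 := Measure.le_map_apply (μ := PP K) (measurable_Ph hD hz).aemeasurable E
    refine le_trans ?_ h1
    have h2 : Ph z ⁻¹' E = univ := by
      ext ω; simp [hE ω]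
    rw [h2, measure_univ]
  apply le_dimH_of_hausdorffMeasure_ne_zero
  intro h0
  have h1 := hle E
  rw [h0, Measure.smul_apply, smul_eq_mul] at h1
  have h2 : (ENNReal.ofReal C)⁻¹ * ((PP K).map (Ph z)) E ≠ 0 := by
    apply mul_ne_zero
    · exact ENNReal.inv_ne_zero.2 ENNReal.ofReal_ne_top
    · intro h; rw [h] at hone; simp at hone
  exact h2 (le_antisymm h1 bot_le)

end point

end

end Pool.Agent.Q3.ExpK
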