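import Pool.Agent.Q3.ExpK.Block
import Pool.Agent.Q3.ExpK.Dim
import Pool.Agent.Q3.ExpK.Defs

/-!
# Positive dimension of `exp(K)`
-/

set_option autoImplicit false

open Filter Topology Set TopologicalSpace
open scoped Pointwise ENNReal NNReal

namespace Pool.Agent.Q3.ExpK

theorem rep_mem_pexp {x y : ℝ} {A : Set ℝ} (hx : x ∈ A) (hy : y ∈ A) {n : ℕ} {v : ℝ}
    (h : Rep x y (Finset.range (n + 1)) v) : v ∈ pexp A n := by
  obtain ⟨t, ht, rfl⟩ := h
  unfold pexp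
  refine Set.finsetSum_mem_finsetSum _ _ _ fun i hi => ?_
  obtain ⟨l, hl, he⟩ := ht i hi
  have h1 : t i ∈ A ^ i := by
    rw [he]
    have h2 := Set.mul_mem_mul (Set.pow_mem_pow (n := i - l) hx) (Set.pow_mem_pow (n := l) hy)
    rwa [← pow_add, Nat.sub_add_cancel hl] at h2
  rw [div_eq_inv_mul]
  exact Set.smul_mem_smul_set h1

section

variable {x y : ℝ} (hy : 0 < y) (hxy : y < x) (hx : x ≤ 1)

/-- The filler. -/
noncomputable def gp (y : ℝ) (a c : ℕ) : ℝ := ∑ i ∈ Finset.Ico a c, y ^ i / i.factorial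

theorem gp_rep (a c : ℕ) : Rep x y (Finset.Ico a c) (gp y a c) :=
  ⟨fun i => y ^ i, fun i _ => ⟨i, le_rfl, by simp⟩, rfl⟩

include hy hxy hx in
theorem gp_bound {a c : ℕ} (ha : 1 ≤ a) (hac : a ≤ c) :
    0 ≤ gp y a c ∧ gp y a c ≤ 2 * S x y a - 2 * S x y c := by
  constructor
  · unfold gp; positivity
  · unfold gp
    induction c, hac using Nat.le_induction with
    | base => simp
    | succ c hc ih =>
      rw [Finset.sum_Ico_succ_top hc]
      have h1 : y ^ c / c.factorial ≤ S x y c := by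
        unfold S
        apply div_le_div_of_nonneg_right _ (by positivity)
        exact pow_le_pow_left₀ hy.le (mu_props hy hxy hx).1.le _
      have h2 := S_half hy hxy hx c (by omega)
      linarith

include hy hxy hx in
theorem S_ratio {a B : ℕ} (m : ℕ) (ham : a ≤ m) (hm : m ≤ B) :
    S x y a ≤ S x y m * (B / mu x y) ^ (m - a) := by
  have hmu := (mu_props hy hxy hx).2.2.1
  induction m, ham using Nat.le_induction with
  | base => simp
  | succ m hma ih =>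
    have h1 := ih (by omega)
    have hS := S_pos hy hxy hx m
    have h2 : S x y m ≤ S x y (m + 1) * (B / mu x y) := by
      rw [S_succ hy hxy hx]
      have h3 : ((m : ℝ) + 1) ≤ B := by exact_mod_cast hm
      have h4 : S x y m * (mu x y / (m + 1)) * (B / mu x y) = S x y m * (B / (m + 1)) := by
        field_simp
      rw [h4]
      have h5 : 1 ≤ (B : ℝ) / (m + 1) := by rw [le_div_iff₀ (by positivity)]; linarith
      nlinarith
    calc S x y a ≤ S x y m * (B / mu x y) ^ (m - a) := h1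
      _ ≤ (S x y (m + 1) * (B / mu x y)) * (B / mu x y) ^ (m - a) := by gcongr
      _ = S x y (m + 1) * (B / mu x y) ^ (m + 1 - a) := by
        rw [show m + 1 - a = (m - a) + 1 by omega, pow_succ]; ring

omit hy hxy hx in
theorem S_tendsto : Tendsto (S x y) atTop (𝓝 0) := by
  unfold S
  exact FloorSemiring.tendsto_pow_div_factorial_atTop (mu x y)

include hy hxy hx in
/-- The block conditions hold eventually. -/
theorem eventually_good : ∃ C : ℕ, 1 ≤ C ∧ ∀ᶠ q : ℕ in atTop, Good x y (C * q ^ 2) q := by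
  have hx0 : 0 < x := hy.trans hxy
  obtain ⟨u1, u2, u3, u4⟩ := mu_props hy hxy hx
  obtain ⟨L, hL⟩ : ∃ L, L = Real.log (x / y) := ⟨_, rfl⟩
  have hLpos : 0 < L := by rw [hL]; exact Real.log_pos (by rw [lt_div_iff₀ hy]; linarith)
  obtain ⟨C, hC⟩ := exists_nat_ge (2 / L + 1)
  have hC1 : (1 : ℝ) ≤ C := le_trans (by have : 0 < 2 / L := by positivity
                                         linarith) hC
  have hC1' : 1 ≤ C := by exact_mod_cast hC1
  have hCL : 2 ≤ C * L := by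
    have : 2 / L ≤ C := by linarith
    rwa [div_le_iff₀ hLpos] at this
  refine ⟨C, hC1', ?_⟩
  -- exponential beats polynomial
  have hr1 : 1 < mu x y / y := by rw [lt_div_iff₀ hy]; linarith
  have hr2 : 1 < (mu x y / y) ^ C := one_lt_pow₀ hr1 (by omega)
  have hexp : ∀ᶠ q : ℕ in atTop, 2 * C * (q : ℝ) ^ 2 / y ≤ ((mu x y / y) ^ C) ^ q := by
    have h1 : Tendsto (fun q : ℕ => (q : ℝ) ^ 2 / ((mu x y / y) ^ C) ^ q) atTop (𝓝 0) :=
      tendsto_pow_const_div_const_pow_of_one_lt 2 hr2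
    have h2 : 0 < y / (2 * C) := by positivity
    filter_upwards [h1.eventually (gt_mem_nhds h2)] with q hq
    have h3 : 0 < ((mu x y / y) ^ C) ^ q := by positivity
    rw [div_lt_iff₀ h3] at hq
    rw [div_le_iff₀ hy]
    have h4 : 2 * C * (q : ℝ) ^ 2 ≤ 2 * C * (y / (2 * C) * ((mu x y / y) ^ C) ^ q) := by
      gcongr
    have h5 : 2 * C * (y / (2 * C) * ((mu x y / y) ^ C) ^ q) = ((mu x y / y) ^ C) ^ q * y := by
      field_simp
    linarith
  have hlin : ∀ᶠ q : ℕ in atTop, 64 * (x / y) / L ≤ q :=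
    (tendsto_natCast_atTop_atTop).eventually_ge_atTop _
  filter_upwards [hexp, hlin, eventually_ge_atTop 2] with q h1 h2 h3
  have hq2 : (2 : ℝ) ≤ q := by exact_mod_cast h3
  refine ⟨?_, ?_, ?_, ?_, ?_⟩
  · nlinarith
  · nlinarith
  · have e : (mu x y / y) ^ (C * q ^ 2) = (((mu x y / y) ^ C) ^ q) ^ q := by
      rw [← pow_mul, ← pow_mul]; congr 1; ring
    rw [e]
    apply pow_le_pow_left₀ (by positivity)
    push_cast
    calc 2 * (C * (q : ℝ) ^ 2) / y = 2 * C * (q : ℝ) ^ 2 / y := by ring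
      _ ≤ _ := h1
  · rw [← hL]
    push_cast
    have : (0 : ℝ) ≤ (q : ℝ) ^ 2 := by positivity
    nlinarith
  · rw [← hL]
    push_cast
    rw [div_le_iff₀ hLpos] at h2
    have h4 : (q : ℝ) ≤ C * (q : ℝ) ^ 2 := by nlinarith
    nlinarith

/-- The growth estimate. -/
theorem eventually_growth {μ : ℝ} (hμ : 0 < μ) (C Λ : ℕ) (hC : 1 ≤ C) (hΛ : 1 ≤ Λ) :
    ∀ᶠ q : ℕ in atTop, 1 ≤ q / Λ ∧
      ((C * (q + 2) ^ 2 : ℕ) / μ : ℝ) ^ (C * (2 * q + 3)) ≤
        ((q / Λ : ℕ) : ℝ) ^ (24 * C * q) ∧ q ≤ 4 * (q / 2) := by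
  have hX : ∀ᶠ q : ℕ in atTop, ((C * (q + 2) ^ 2 : ℕ) / μ : ℝ) ≤ (q : ℝ) ^ 3 := by
    have h1 : ∀ᶠ q : ℕ in atTop, 4 * C / μ ≤ (q : ℝ) :=
      (tendsto_natCast_atTop_atTop).eventually_ge_atTop _
    filter_upwards [h1, eventually_ge_atTop 2] with q h2 h3
    have hq2 : (2 : ℝ) ≤ q := by exact_mod_cast h3
    rw [div_le_iff₀ hμ] at h2 ⊢
    push_cast
    have h4 : ((q : ℝ) + 2) ^ 2 ≤ 4 * (q : ℝ) ^ 2 := by nlinarith
    have h5 : (C : ℝ) * ((q : ℝ) + 2) ^ 2 ≤ C * (4 * (q : ℝ) ^ 2) := by gcongr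
    have h6 : (4 * (C : ℝ)) * (q : ℝ) ^ 2 ≤ (q * μ) * (q : ℝ) ^ 2 := by gcongr
    nlinarith
  filter_upwards [hX, eventually_ge_atTop (4 * Λ ^ 2 + 2)] with q h1 h2
  have hM1 : 4 * Λ ≤ q / Λ * Λ + Λ := by
    have : Λ * (q / Λ) + q % Λ = q := Nat.div_add_mod q Λ
    have h3 : q % Λ < Λ := Nat.mod_lt _ (by omega)
    nlinarith
  have hMΛ : 2 * Λ ≤ q / Λ := by
    rw [Nat.le_div_iff_mul_le (by omega)]
    nlinarith
  have hMq : q ≤ (q / Λ) ^ 2 := by
    have h3 : Λ * (q / Λ) + q % Λ = q := Nat.div_add_mod q Λ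
    have h4 : q % Λ < Λ := Nat.mod_lt _ (by omega)
    nlinarith
  refine ⟨by omega, ?_, by omega⟩
  have hM : (1 : ℝ) ≤ ((q / Λ : ℕ) : ℝ) := by
    have : 1 ≤ q / Λ := by omega
    exact_mod_cast this
  have hXM : ((C * (q + 2) ^ 2 : ℕ) / μ : ℝ) ≤ ((q / Λ : ℕ) : ℝ) ^ 6 := by
    refine h1.trans ?_
    have h3 : (q : ℝ) ≤ ((q / Λ : ℕ) : ℝ) ^ 2 := by exact_mod_cast hMq
    calc (q : ℝ) ^ 3 ≤ (((q / Λ : ℕ) : ℝ) ^ 2) ^ 3 := by gcongr
      _ = ((q / Λ : ℕ) : ℝ) ^ 6 := by rw [← pow_mul]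
  calc ((C * (q + 2) ^ 2 : ℕ) / μ : ℝ) ^ (C * (2 * q + 3))
      ≤ (((q / Λ : ℕ) : ℝ) ^ 6) ^ (C * (2 * q + 3)) := by gcongr
    _ = ((q / Λ : ℕ) : ℝ) ^ (6 * (C * (2 * q + 3))) := by rw [← pow_mul]
    _ ≤ ((q / Λ : ℕ) : ℝ) ^ (24 * C * q) := by
      apply pow_le_pow_right₀ hM
      have : 2 * q + 3 ≤ 4 * q := by omega
      calc 6 * (C * (2 * q + 3)) ≤ 6 * (C * (4 * q)) := by gcongr
        _ = 24 * C * q := by ring

end

/-- The main theorem: two distinct positive points force positive dimension. -/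
theorem dimH_expK_pos (K : NonemptyCompacts (Icc (0 : ℝ) 1)) (hK : TwoPos K) :
    0 < dimH (expK K : Set ℝ) := by
  classical
  obtain ⟨x, hxK, y, hyK, hy, hxy⟩ := hK
  have hx : x ≤ 1 := by
    obtain ⟨a, _, rfl⟩ := hxK
    exact a.2.2
  obtain ⟨u1, u2, u3, u4⟩ := mu_props hy hxy hx
  obtain ⟨C, hC1, hgood⟩ := eventually_good hy hxy hx
  obtain ⟨Kc, hKc⟩ := exists_nat_ge (32 * (x / y) + 1)
  obtain ⟨Λ, hΛ⟩ : ∃ Λ, Λ = 8 * (1 + 2 * Kc) := ⟨_, rfl⟩
  have hgrow := eventually_growth u3 C Λ hC1 (by omega)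
  obtain ⟨Q, hQ⟩ := eventually_atTop.1 (hgood.and hgrow)
  -- data
  have hblock : ∀ k : ℕ, ∃ z : ℕ → ℝ, (∀ c, Rep x y (Finset.Ico (C * (k + Q) ^ 2)
      (C * (k + Q) ^ 2 + (k + Q))) (z c) ∧ 0 ≤ z c ∧
      z c ≤ 2 * S x y (C * (k + Q) ^ 2) - 2 * S x y (C * (k + Q) ^ 2 + (k + Q))) ∧
      (∀ c < ((k + Q) / Λ) ^ ((k + Q) / 2), ∀ c' < ((k + Q) / Λ) ^ ((k + Q) / 2), c ≠ c' →
        4 * S x y (C * (k + Q) ^ 2 + (k + Q)) ≤ |z c - z c'|) := by
    intro k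
    apply block hy hxy hx (hQ (k + Q) (by omega)).1 hKc
    rw [← hΛ]
    exact Nat.mul_div_le _ _
  choose w hw1 hw2 using hblock
  obtain ⟨D, hD⟩ : ∃ D : ℕ → ℝ, D = fun k => S x y (C * (k + Q) ^ 2) := ⟨_, rfl⟩
  obtain ⟨z, hz⟩ : ∃ z : ℕ → ℕ → ℝ, z = fun k c => w k c +
    gp y (C * (k + Q) ^ 2 + (k + Q)) (C * (k + 1 + Q) ^ 2) := ⟨_, rfl⟩
  have hDpos : ∀ k, 0 < D k := by intro k; rw [hD]; exact S_pos hy hxy hx _
  have hnle : ∀ k, C * (k + Q) ^ 2 + (k + Q) ≤ C * (k + 1 + Q) ^ 2 := by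
    intro k
    nlinarith
  have hkk : ∀ k, k ≤ C * (k + Q) ^ 2 := by
    intro k
    calc k ≤ k + Q := Nat.le_add_right _ _
      _ ≤ (k + Q) ^ 2 := Nat.le_self_pow (by norm_num) _
      _ ≤ C * (k + Q) ^ 2 := Nat.le_mul_of_pos_left _ hC1
  have hn1 : ∀ k, 2 ≤ C * (k + Q) ^ 2 := fun k => (hQ (k + Q) (by omega)).1.hn
  have hzb : ∀ k c, 0 ≤ z k c ∧ z k c ≤ 2 * D k - 2 * D (k + 1) := by
    intro k c
    obtain ⟨_, h2, h3⟩ := hw1 k c
    obtain ⟨h4, h5⟩ := gp_bound hy hxy hx (a := C * (k + Q) ^ 2 + (k + Q)) (by have := hn1 k; omega)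
      (hnle k)
    rw [hz, hD]
    constructor
    · simp only; linarith
    · simp only; linarith
  obtain ⟨N, hN⟩ : ∃ N : ℕ → ℕ, N = fun k => ((k + Q) / Λ) ^ ((k + Q) / 2) - 1 := ⟨_, rfl⟩
  have hN1 : ∀ k, N k + 1 = ((k + Q) / Λ) ^ ((k + Q) / 2) := by
    intro k
    rw [hN]
    have h1 : 1 ≤ (k + Q) / Λ := (hQ (k + Q) (by omega)).2.1
    have h2 : 1 ≤ ((k + Q) / Λ) ^ ((k + Q) / 2) := Nat.one_le_pow _ _ h1
    simp only
    omega
  have hsep : ∀ n, ∀ c < N n + 1, ∀ c' < N n + 1, c ≠ c' → 4 * D (n + 1) ≤ |z n c - z n c'| := by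
    intro k c hc c' hc' hne
    rw [hN1] at hc hc'
    have h1 := hw2 k c hc c' hc' hne
    rw [hz, hD]
    simp only
    rw [add_sub_add_right_eq_sub]
    refine le_trans ?_ h1
    have := S_antitone hy hxy hx (hnle k)
    linarith
  have hlim : Tendsto D atTop (𝓝 0) := by
    rw [hD]
    refine S_tendsto.comp ?_
    refine tendsto_atTop_mono (fun k => ?_) tendsto_id
    exact hkk k
  obtain ⟨d, hd⟩ : ∃ d : ℝ≥0, d = 1 / (96 * C) := ⟨_, rfl⟩
  have hCpos : (0 : ℝ) < C := by exact_mod_cast hC1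
  have hdr : (d : ℝ) = 1 / (96 * C) := by rw [hd]; push_cast; rfl
  have hd0 : 0 < (d : ℝ) := by rw [hdr]; positivity
  have hd0' : 0 < d := by exact_mod_cast hd0
  have hstep : ∀ n, D (n + 1) ^ (d : ℝ) ≤ (N n + 1) * D (n + 2) ^ (d : ℝ) := by
    intro n
    obtain ⟨g1, g2, g3⟩ := (hQ (n + Q) (by omega)).2
    have h1 := S_ratio hy hxy hx (a := C * (n + 1 + Q) ^ 2) (B := C * (n + 2 + Q) ^ 2)
      (C * (n + 2 + Q) ^ 2) (by gcongr; omega) le_rfl
    have e1 : C * (n + 2 + Q) ^ 2 - C * (n + 1 + Q) ^ 2 = C * (2 * (n + Q) + 3) := by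
      apply Nat.sub_eq_of_eq_add; ring
    rw [e1] at h1
    have e2 : C * (n + 2 + Q) ^ 2 = C * ((n + Q) + 2) ^ 2 := by ring
    have h2 : D (n + 1) ≤ D (n + 2) * (((n + Q) / Λ : ℕ) : ℝ) ^ (24 * C * (n + Q)) := by
      rw [hD]
      simp only
      refine h1.trans ?_
      apply mul_le_mul_of_nonneg_left _ (S_pos hy hxy hx _).le
      rw [e2]
      exact g2
    have hM : (1 : ℝ) ≤ (((n + Q) / Λ : ℕ) : ℝ) := by exact_mod_cast g1
    have h3 : D (n + 1) ^ (d : ℝ) ≤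
        (D (n + 2) * (((n + Q) / Λ : ℕ) : ℝ) ^ (24 * C * (n + Q))) ^ (d : ℝ) :=
      Real.rpow_le_rpow (hDpos _).le h2 hd0.le
    rw [Real.mul_rpow (hDpos _).le (by positivity)] at h3
    have h4 : ((((n + Q) / Λ : ℕ) : ℝ) ^ (24 * C * (n + Q))) ^ (d : ℝ) ≤ N n + 1 := by
      rw [← Real.rpow_natCast, ← Real.rpow_mul (by linarith)]
      have h5 : (N n : ℝ) + 1 = (((n + Q) / Λ : ℕ) : ℝ) ^ (((n + Q) / 2 : ℕ) : ℝ) := by
        rw [Real.rpow_natCast]
        exact_mod_cast hN1 n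
      rw [h5]
      apply Real.rpow_le_rpow_of_exponent_le hM
      rw [hdr]
      have h6 : ((n + Q : ℕ) : ℝ) ≤ 4 * (((n + Q) / 2 : ℕ) : ℝ) := by exact_mod_cast g3
      have h7 : ((24 * C * (n + Q) : ℕ) : ℝ) * (1 / (96 * C)) = ((n + Q : ℕ) : ℝ) / 4 := by
        push_cast; field_simp; ring
      rw [h7]
      linarith
    calc D (n + 1) ^ (d : ℝ) ≤ _ := h3
      _ ≤ D (n + 2) ^ (d : ℝ) * (N n + 1) := by
        apply mul_le_mul_of_nonneg_left h4
        exact Real.rpow_nonneg (hDpos _).le _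
      _ = _ := by ring
  obtain ⟨C', hC'⟩ : ∃ C' : ℝ, C' = (D 1 ^ (d : ℝ))⁻¹ := ⟨_, rfl⟩
  have hD1 : 0 < D 1 ^ (d : ℝ) := Real.rpow_pos_of_pos (hDpos 1) _
  have hC'0 : 0 < C' := by rw [hC']; positivity
  have hgr : ∀ n, 1 / ∏ i ∈ Finset.range n, ((N i : ℝ) + 1) ≤ C' * D (n + 1) ^ (d : ℝ) := by
    intro n
    induction n with
    | zero =>
      rw [Finset.prod_range_zero, hC', zero_add, inv_mul_cancel₀ hD1.ne']
      norm_num
    | succ n ih =>
      rw [Finset.prod_range_succ]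
      have hp : 0 < ∏ i ∈ Finset.range n, ((N i : ℝ) + 1) :=
        Finset.prod_pos fun i _ => by positivity
      have h1 := hstep n
      rw [← div_div, div_le_iff₀ (by positivity)]
      refine ih.trans ?_
      calc C' * D (n + 1) ^ (d : ℝ) ≤ C' * ((N n + 1) * D (n + 2) ^ (d : ℝ)) :=
            mul_le_mul_of_nonneg_left h1 hC'0.le
        _ = C' * D (n + 1 + 1) ^ (d : ℝ) * ((N n : ℝ) + 1) := by ring_nf
  -- membership
  obtain ⟨F0, hF0⟩ : ∃ F0, F0 = gp y 0 (C * (0 + Q) ^ 2) := ⟨_, rfl⟩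
  have hmem : ∀ ω : ℕ → ℕ, F0 + Ph z ω ∈ (expK K : Set ℝ) := by
    intro ω
    have hrep : ∀ k, Rep x y (Finset.range (C * (k + Q) ^ 2))
        (F0 + ∑ i ∈ Finset.range k, z i (ω i)) := by
      intro k
      induction k with
      | zero =>
        rw [Finset.sum_range_zero, add_zero, hF0, Finset.range_eq_Ico]
        exact gp_rep 0 _
      | succ k ih =>
        have hrk : Rep x y (Finset.Ico (C * (k + Q) ^ 2) (C * (k + 1 + Q) ^ 2)) (z k (ω k)) := by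
          have h1 := (hw1 k (ω k)).1
          have h2 := gp_rep (x := x) (y := y) (C * (k + Q) ^ 2 + (k + Q)) (C * (k + 1 + Q) ^ 2)
          have h3 := rep_union (Finset.Ico_disjoint_Ico_consecutive _ _ _) h1 h2
          rw [Finset.Ico_union_Ico_eq_Ico (by omega) (hnle k)] at h3
          rw [hz]
          exact h3
        rw [Finset.range_eq_Ico] at ih
        have h4 := rep_union (Finset.Ico_disjoint_Ico_consecutive _ _ _) ih hrk
        rw [Finset.Ico_union_Ico_eq_Ico (Nat.zero_le _) ((Nat.le_add_right _ _).trans (hnle k)),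
          ← Finset.range_eq_Ico] at h4
        rw [Finset.sum_range_succ, ← add_assoc]
        exact h4
    refine mem_expK K (u := fun k => C * (k + Q) ^ 2 - 1) (v := fun k => F0 +
      ∑ i ∈ Finset.range k, z i (ω i)) ?_ ?_ ?_
    · refine tendsto_atTop_mono (fun k => ?_) (tendsto_sub_atTop_nat 1)
      have := hkk k
      show k - 1 ≤ C * (k + Q) ^ 2 - 1
      omega
    · intro k
      apply rep_mem_pexp hxK hyK
      rw [Nat.sub_add_cancel (by have := hn1 k; omega)]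
      exact hrep k
    · exact (tendsto_Ph hDpos hzb ω).const_add F0
  have hdim := dimH_ge hDpos hzb hsep hlim hC'0 hd0' hgr (E := {v | F0 + v ∈ (expK K : Set ℝ)}) hmem
  have hiso : dimH ((IsometryEquiv.addLeft F0) '' {v | F0 + v ∈ (expK K : Set ℝ)}) =
      dimH {v | F0 + v ∈ (expK K : Set ℝ)} := IsometryEquiv.dimH_image _ _
  have hsub : (IsometryEquiv.addLeft F0) '' {v | F0 + v ∈ (expK K : Set ℝ)} ⊆ (expK K : Set ℝ) := by
    rintro _ ⟨v, hv, rfl⟩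
    exact hv
  have hd1 : (0 : ℝ≥0∞) < d := by exact_mod_cast hd0'
  exact hd1.trans_le (hdim.trans (hiso ▸ dimH_mono hsub))

theorem meagre_zero : IsMeagre {K | dimH (expK K : Set ℝ) = 0} := by
  rw [IsMeagre]
  refine Filter.mem_of_superset (residual_of_dense_open isOpen_twoPos dense_twoPos) ?_
  intro K hK h0
  exact (dimH_expK_pos K hK).ne' h0

theorem not_meagre_pos : ¬ IsMeagre {K | 0 < dimH (expK K : Set ℝ)} := by
  have : Nonempty (NonemptyCompacts (Icc (0 : ℝ) 1)) :=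
    ⟨⟨⟨{⟨0, by norm_num⟩}, isCompact_singleton⟩, ⟨_, rfl⟩⟩⟩
  apply not_isMeagre_of_mem_residual
  refine Filter.mem_of_superset (residual_of_dense_open isOpen_twoPos dense_twoPos) ?_
  intro K hK
  exact dimH_expK_pos K hK

end Pool.Agent.Q3.ExpK
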