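import Mathlib

/-!
# The exponential series at a compact set: selecting separated terms
-/

set_option autoImplicit false

open Filter Topology Set

namespace Pool.Agent.Q3.ExpK

/-- From few close pairs one gets many separated points. -/
theorem exists_sep (U : Finset ℕ) (G : ℕ → ℝ) {η : ℝ} (hη : 0 < η) (E : ℕ)
    (hpairs : ((U ×ˢ U).filter (fun a => |G a.1 - G a.2| < η)).card ≤ E) :
    ∃ P ⊆ U, U.card ^ 2 ≤ 2 * E * P.card ∧
      ∀ i ∈ P, ∀ i' ∈ P, i ≠ i' → η ≤ |G i - G i'| := by
  classical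
  let cl : ℕ → ℤ := fun i => ⌊G i / η⌋
  have hcl : ∀ i i', cl i = cl i' → |G i - G i'| < η := by
    intro i i' h
    have h1 := Int.floor_le (G i / η)
    have h2 := Int.lt_floor_add_one (G i / η)
    have h3 := Int.floor_le (G i' / η)
    have h4 := Int.lt_floor_add_one (G i' / η)
    have h5 : (⌊G i / η⌋ : ℝ) = ⌊G i' / η⌋ := by
      have : ⌊G i / η⌋ = ⌊G i' / η⌋ := h
      rw [this]
    rw [h5] at h1 h2
    rw [le_div_iff₀ hη] at h1 h3
    rw [div_lt_iff₀ hη] at h2 h4
    rw [abs_lt]; constructor <;> nlinarith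
  -- number of classes
  have hsum : U.card = ∑ c ∈ U.image cl, (U.filter (fun i => cl i = c)).card :=
    Finset.card_eq_sum_card_fiberwise (fun i hi => Finset.mem_image_of_mem _ hi)
  have hsq : ∑ c ∈ U.image cl, (U.filter (fun i => cl i = c)).card ^ 2 ≤ E := by
    refine le_trans ?_ hpairs
    have h1 : ∀ c ∈ U.image cl, (U.filter (fun i => cl i = c)).card ^ 2 =
        ((U ×ˢ U).filter (fun a => cl a.1 = c ∧ cl a.2 = c)).card := by
      intro c _
      rw [sq, ← Finset.card_product, ← Finset.filter_product]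
    rw [Finset.sum_congr rfl h1, ← Finset.card_biUnion]
    · apply Finset.card_le_card
      intro a ha
      rw [Finset.mem_biUnion] at ha
      obtain ⟨c, _, ha⟩ := ha
      rw [Finset.mem_filter] at ha ⊢
      exact ⟨ha.1, hcl _ _ (ha.2.1.trans ha.2.2.symm)⟩
    · intro c _ c' _ hcc
      rw [Function.onFun, Finset.disjoint_left]
      intro a ha ha'
      rw [Finset.mem_filter] at ha ha'
      exact hcc (ha.2.1.symm.trans ha'.2.1)
  have hcs : U.card ^ 2 ≤ (U.image cl).card * E := by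
    have h1 := @sq_sum_le_card_mul_sum_sq ℤ ℕ _ _ _ _ (U.image cl)
      (fun c => (U.filter (fun i => cl i = c)).card)
    rw [← hsum] at h1
    exact h1.trans (Nat.mul_le_mul_left _ hsq)
  -- choose a parity
  obtain ⟨I, hI, hIc, hIp⟩ : ∃ I ⊆ U.image cl, (U.image cl).card ≤ 2 * I.card ∧
      ∀ c ∈ I, ∀ c' ∈ I, c ≠ c' → 2 ≤ |c - c'| := by
    have hsplit := Finset.card_filter_add_card_filter_not (s := U.image cl) (fun c : ℤ => Even c)
    have hpar : ∀ c c' : ℤ, (Even c ↔ Even c') → c ≠ c' → 2 ≤ |c - c'| := by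
      intro c c' h hne
      have h1 : Even (c - c') := Int.even_sub.2 h
      obtain ⟨k, hk⟩ := h1
      have h2 : k ≠ 0 := by rintro rfl; apply hne; omega
      rw [hk]
      rcases lt_or_gt_of_ne h2 with h3 | h3
      · rw [abs_of_neg (by omega)]; omega
      · rw [abs_of_pos (by omega)]; omega
    rcases le_total ((U.image cl).filter (fun c : ℤ => Even c)).card
      ((U.image cl).filter (fun c : ℤ => ¬ Even c)).card with h | h
    · refine ⟨(U.image cl).filter (fun c : ℤ => ¬ Even c), Finset.filter_subset _ _, by omega, ?_⟩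
      intro c hc c' hc' hne
      rw [Finset.mem_filter] at hc hc'
      exact hpar c c' (by tauto) hne
    · refine ⟨(U.image cl).filter (fun c : ℤ => Even c), Finset.filter_subset _ _, by omega, ?_⟩
      intro c hc c' hc' hne
      rw [Finset.mem_filter] at hc hc'
      exact hpar c c' (by tauto) hne
  -- representatives
  have hrep : ∀ c : ℤ, c ∈ I → ∃ i ∈ U, cl i = c := by
    intro c hc
    have := hI hc
    rw [Finset.mem_image] at this
    exact this
  choose! rep hrepU hrepc using hrep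
  refine ⟨I.image rep, ?_, ?_, ?_⟩
  · intro i hi
    rw [Finset.mem_image] at hi
    obtain ⟨c, hc, rfl⟩ := hi
    exact hrepU c hc
  · have hinj : Set.InjOn rep (I : Set ℤ) := by
      intro c hc c' hc' h
      rw [← hrepc c hc, ← hrepc c' hc', h]
    rw [Finset.card_image_of_injOn hinj]
    calc U.card ^ 2 ≤ (U.image cl).card * E := hcs
      _ ≤ (2 * I.card) * E := Nat.mul_le_mul_right _ hIc
      _ = 2 * E * I.card := by ring
  · intro i hi i' hi' hne
    rw [Finset.mem_image] at hi hi'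
    obtain ⟨c, hc, rfl⟩ := hi
    obtain ⟨c', hc', rfl⟩ := hi'
    have hcc : c ≠ c' := by rintro rfl; exact hne rfl
    have h1 := hIp c hc c' hc' hcc
    have h2 := hrepc c hc
    have h3 := hrepc c' hc'
    have a1 := Int.floor_le (G (rep c) / η)
    have a2 := Int.lt_floor_add_one (G (rep c) / η)
    have a3 := Int.floor_le (G (rep c') / η)
    have a4 := Int.lt_floor_add_one (G (rep c') / η)
    have b1 : ⌊G (rep c) / η⌋ = c := h2
    have b2 : ⌊G (rep c') / η⌋ = c' := h3
    rw [b1] at a1 a2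
    rw [b2] at a3 a4
    rw [le_div_iff₀ hη] at a1 a3
    rw [div_lt_iff₀ hη] at a2 a4
    rcases le_abs.1 h1 with h4 | h4
    · have h5 : (2 : ℝ) ≤ (c : ℝ) - c' := by exact_mod_cast h4
      rw [le_abs]; left; nlinarith
    · have h5 : (2 : ℝ) ≤ -((c : ℝ) - c') := by exact_mod_cast h4
      rw [le_abs]; right; nlinarith

section

variable {x y : ℝ} (hy : 0 < y) (hxy : y < x) (hx : x ≤ 1)

/-- The geometric mean. -/
noncomputable def mu (x y : ℝ) : ℝ := Real.sqrt (x * y)

/-- `S_m = μ^m / m!`. -/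
noncomputable def S (x y : ℝ) (m : ℕ) : ℝ := mu x y ^ m / m.factorial

include hy hxy hx in
theorem mu_props : y < mu x y ∧ mu x y < x ∧ 0 < mu x y ∧ mu x y ^ 2 = x * y := by
  have hx0 : 0 < x := hy.trans hxy
  have h1 : 0 ≤ x * y := by positivity
  refine ⟨?_, ?_, ?_, Real.sq_sqrt h1⟩
  · exact Real.lt_sqrt_of_sq_lt (by nlinarith)
  · rw [mu, Real.sqrt_lt' hx0]; nlinarith
  · exact Real.sqrt_pos.2 (by positivity)

include hy hxy hx in
theorem S_pos (m : ℕ) : 0 < S x y m := by
  have := (mu_props hy hxy hx).2.2.1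
  unfold S; positivity

include hy hxy hx in
theorem S_succ (m : ℕ) : S x y (m + 1) = S x y m * (mu x y / (m + 1)) := by
  unfold S
  rw [pow_succ, Nat.factorial_succ]
  push_cast
  field_simp

include hy hxy hx in
theorem S_half (m : ℕ) (hm : 1 ≤ m) : S x y (m + 1) ≤ S x y m / 2 := by
  have h1 := mu_props hy hxy hx
  have h2 := S_pos hy hxy hx m
  rw [S_succ hy hxy hx]
  have h3 : mu x y / ((m : ℝ) + 1) ≤ 1 / 2 := by
    have : (1 : ℝ) ≤ m := by exact_mod_cast hm
    rw [div_le_div_iff₀ (by positivity) (by norm_num)]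
    linarith [h1.2.1]
  nlinarith

/-- `log (x^i / i!)`. -/
noncomputable def Fl (x : ℝ) (i : ℕ) : ℝ := Real.log (x ^ i / i.factorial)

include hy hxy in
theorem Fl_succ (i : ℕ) : Fl x (i + 1) = Fl x i + Real.log (x / (i + 1)) := by
  have hx0 : 0 < x := hy.trans hxy
  unfold Fl
  rw [← Real.log_mul (by positivity) (by positivity), pow_succ, Nat.factorial_succ]
  congr 1
  push_cast
  field_simp

include hy hxy in
/-- Monotonicity of `h_d(i) = F(i) - F(i+d)`. -/
theorem hd_bounds {n d : ℕ} (i1 : ℕ) (hn : 1 ≤ n) (h1 : n ≤ i1) (i2 : ℕ) (h12 : i1 ≤ i2)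
    (h2 : i2 + d ≤ 2 * n) :
    ((i2 : ℝ) - i1) * d / (2 * n) ≤ (Fl x i2 - Fl x (i2 + d)) - (Fl x i1 - Fl x (i1 + d)) ∧
    (Fl x i2 - Fl x (i2 + d)) - (Fl x i1 - Fl x (i1 + d)) ≤ ((i2 : ℝ) - i1) * d / n := by
  have hx0 : 0 < x := hy.trans hxy
  have hnr : (0 : ℝ) < n := by exact_mod_cast hn
  induction i2, h12 using Nat.le_induction with
  | base => simp
  | succ i hi ih =>
    obtain ⟨l1, l2⟩ := ih (by omega)
    have e1 : i + 1 + d = (i + d) + 1 := by omega
    rw [e1, Fl_succ hy hxy i, Fl_succ hy hxy (i + d)]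
    have hi0 : (0 : ℝ) < (i : ℝ) + 1 := by positivity
    have hid0 : (0 : ℝ) < ((i + d : ℕ) : ℝ) + 1 := by positivity
    have e2 : Real.log (x / (i + 1)) - Real.log (x / (((i + d : ℕ) : ℝ) + 1)) =
        Real.log ((((i + d : ℕ) : ℝ) + 1) / (i + 1)) := by
      rw [← Real.log_div (by positivity) (by positivity)]
      congr 1
      field_simp
    have hu : 0 < (((i + d : ℕ) : ℝ) + 1) / (i + 1) := by positivity
    have b1 := Real.one_sub_inv_le_log_of_pos hu
    have b2 := Real.log_le_sub_one_of_pos hu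
    have c1 : (d : ℝ) / (2 * n) ≤ 1 - ((((i + d : ℕ) : ℝ) + 1) / (i + 1))⁻¹ := by
      rw [inv_div]
      have : 1 - ((i : ℝ) + 1) / (((i + d : ℕ) : ℝ) + 1) = d / (((i + d : ℕ) : ℝ) + 1) := by
        field_simp; push_cast; ring
      rw [this]
      apply div_le_div_of_nonneg_left (Nat.cast_nonneg d) hid0
      have : i + d + 1 ≤ 2 * n := by omega
      exact_mod_cast this
    have c2 : (((i + d : ℕ) : ℝ) + 1) / (i + 1) - 1 ≤ d / n := by
      have : (((i + d : ℕ) : ℝ) + 1) / (i + 1) - 1 = d / (i + 1) := by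
        field_simp; push_cast; ring
      rw [this]
      apply div_le_div_of_nonneg_left (Nat.cast_nonneg d) hnr
      have : n ≤ i + 1 := by omega
      exact_mod_cast this
    have e3 : (((i + 1 : ℕ) : ℝ) - i1) * d / (2 * n) = ((i : ℝ) - i1) * d / (2 * n) + d / (2 * n) := by
      push_cast; ring
    have e4 : (((i + 1 : ℕ) : ℝ) - i1) * d / n = ((i : ℝ) - i1) * d / n + d / n := by
      push_cast; ring
    rw [e3, e4]
    constructor <;> linarith

/-- The terms available at index `i`. -/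
def Tm (x y : ℝ) (i : ℕ) : Set ℝ := {t | ∃ l ≤ i, t = x ^ (i - l) * y ^ l}

include hy hxy hx in
/-- A term of `A_i` of size about `S_m`. -/
theorem reach {m i : ℕ} (h1 : y ^ i / i.factorial ≤ S x y m) (h2 : S x y m ≤ x ^ i / i.factorial) :
    ∃ l ≤ i, S x y m * (y / x) < x ^ (i - l) * y ^ l / i.factorial ∧
      x ^ (i - l) * y ^ l / i.factorial ≤ S x y m := by
  classical
  have hx0 : 0 < x := hy.trans hxy
  have hS := S_pos hy hxy hx m
  have hex : ∃ l, l ≤ i ∧ x ^ (i - l) * y ^ l / i.factorial ≤ S x y m := ⟨i, le_rfl, by simpa using h1⟩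
  obtain ⟨l, hl⟩ : ∃ l, l = Nat.find hex := ⟨_, rfl⟩
  have hspec := Nat.find_spec hex
  rw [← hl] at hspec
  refine ⟨l, hspec.1, ?_, hspec.2⟩
  have hyx : y / x < 1 := by rw [div_lt_one hx0]; exact hxy
  rcases Nat.eq_zero_or_pos l with h0 | h0
  · rw [h0]
    simp only [Nat.sub_zero, pow_zero, mul_one]
    nlinarith
  · have := Nat.find_min hex (show l - 1 < Nat.find hex by omega)
    push Not at this
    have h3 := this (by omega)
    have e1 : i - (l - 1) = (i - l) + 1 := by omega
    have e2 : y ^ l = y ^ (l - 1) * y := by rw [← pow_succ]; congr 1; omega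
    rw [e1, pow_succ] at h3
    have hyx0 : 0 < y / x := by positivity
    calc S x y m * (y / x) < (x ^ (i - l) * x * y ^ (l - 1) / i.factorial) * (y / x) :=
          mul_lt_mul_of_pos_right h3 hyx0
      _ = x ^ (i - l) * y ^ l / i.factorial := by rw [e2]; field_simp

end

end Pool.Agent.Q3.ExpK
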